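import Mathlib
import Pool.Agent.H635R2.Tools

/-! Models with standard natural numbers: `ℕ` as an internal type. -/

set_option autoImplicit false

namespace Pool.Agent.Helper672.ZFA.H154

open FirstOrder FirstOrder.Language

universe u u₁ u₂ u₃

variable {M : Type u} [L.Structure M] [hM : IsModel M]

/-- The standard numerals of the model. -/
noncomputable def num : ℕ → INat M
  | 0 => 0
  | n + 1 => (num n).succ

theorem num_strictMono : StrictMono (num : ℕ → INat M) :=
  strictMono_nat_of_lt_succ fun n => INat.lt_succ_self (num n)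

theorem num_inj : Function.Injective (num : ℕ → INat M) := num_strictMono.injective

theorem num_lt {a b : ℕ} : (num a : INat M) < num b ↔ a < b := num_strictMono.lt_iff_lt

variable (M) in
/-- All natural numbers of the model are standard. -/
class Std : Prop where
  surj : Function.Surjective (num : ℕ → INat M)

variable [hS : Std M]

theorem int_range_num : Int M (fun a : INat M => ∃ c, num c = a) :=
  (Int.const True).congr fun a => ⟨fun _ => hS.surj a, fun _ => trivial⟩

noncomputable instance instITyNat : ITy M ℕ := ITy.ofInj num num_inj int_range_num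

theorem code_nat (n : ℕ) : code (M := M) n = (num n : INat M).val := rfl

variable {α : Type u₁} {β : Type u₂} {γ : Type u₃} [ITy M α] [ITy M β] [ITy M γ]

theorem intF_num' : IntF M (num : ℕ → INat M) := IntF.ofInj num num_inj int_range_num

theorem intF_num {f : γ → ℕ} (hf : IntF M f) : IntF M (fun c => (num (f c) : INat M)) :=
  IntF.comp intF_num' hf

theorem intF_of_num {f : γ → ℕ} (hf : IntF M (fun c => (num (f c) : INat M))) : IntF M f :=
  IntF.ofInj_iff num num_inj int_range_num hf

theorem int_ltn {f g : γ → ℕ} (hf : IntF M f) (hg : IntF M g) : Int M (fun c => f c < g c) :=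
  (Int.ltN (intF_num hf) (intF_num hg)).congr fun _ => num_lt

theorem int_len {f g : γ → ℕ} (hf : IntF M f) (hg : IntF M g) : Int M (fun c => f c ≤ g c) :=
  (int_ltn hg hf).not.congr fun _ => not_lt

theorem intF_succ {f : γ → ℕ} (hf : IntF M f) : IntF M (fun c => f c + 1) :=
  intF_of_num (IntF.succ (intF_num hf))

/-- Eventually constant sequences are internal. -/
theorem intF_trunc (v : ℕ → α) (n : ℕ) : IntF M (fun m => v (min m n)) := by
  induction n with
  | zero => simpa using IntF.const (M := M) (α := ℕ) (v 0)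
  | succ n ih =>
    have h : IntF M (fun m : ℕ => if m ≤ n then v (min m n) else v (n + 1)) :=
      IntF.ite (int_len IntF.id (IntF.const _)) ih (IntF.const _)
    convert h using 2 with m
    split_ifs with hm
    · rw [min_eq_left hm, min_eq_left (by omega)]
    · rw [min_eq_right (by omega)]

/-- Functions defined by recursion are internal. -/
theorem intF_rec {f : γ → ℕ → α} {a : γ → α} {s : γ → ℕ → α → α} (ha : IntF M a)
    (hs : IntF M (fun q : (γ × ℕ) × α => s q.1.1 q.1.2 q.2)) (h0 : ∀ c, f c 0 = a c)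
    (h1 : ∀ c n, f c (n + 1) = s c n (f c n)) : IntF M (fun q : γ × ℕ => f q.1 q.2) := by
  refine IntF.of_rel (r := fun q x => ∃ h : IFun M ℕ α, h 0 = a q.1 ∧
    (∀ m, m < q.2 → h (m + 1) = s q.1 m (h m)) ∧ h q.2 = x) ?_ ?_
  · refine Int.ex (Int.and (Int.eq (IntF.app IntF.snd' (IntF.const _))
      (IntF.comp ha (IntF.fst (IntF.fst IntF.fst')))) (Int.and (Int.all (Int.imp
        (int_ltn IntF.snd' (IntF.snd (IntF.fst (IntF.fst IntF.fst'))))
        (Int.eq (IntF.app (IntF.snd IntF.fst') (intF_succ IntF.snd'))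
          (IntF.comp₃ hs (IntF.fst (IntF.fst (IntF.fst IntF.fst'))) IntF.snd'
            (IntF.app (IntF.snd IntF.fst') IntF.snd')))))
      (Int.eq (IntF.app IntF.snd' (IntF.snd (IntF.fst IntF.fst'))) (IntF.snd IntF.fst'))))
  · rintro ⟨c, n⟩ x
    constructor
    · rintro ⟨h, e0, e1, e2⟩
      have key : ∀ m, m ≤ n → h m = f c m := by
        intro m
        induction m with
        | zero => intro _; rw [e0, h0]
        | succ m ih => intro hm; rw [e1 m hm, h1, ih (by omega)]
      exact (key n le_rfl).symm.trans e2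
    · rintro rfl
      refine ⟨⟨fun m => f c (min m n), intF_trunc (f c) n⟩, ?_, ?_, ?_⟩
      · simp [h0]
      · intro m hm
        have hm' : m < n := hm
        show f c (min (m + 1) n) = s c m (f c (min m n))
        rw [min_eq_left (by omega), min_eq_left (by omega), h1]
      · simp

instance : IAdd M ℕ where
  out := intF_rec (M := M) (f := fun a b : ℕ => a + b) (a := fun a => a) (s := fun _ _ x => x + 1)
    IntF.id (intF_succ IntF.snd') (fun _ => rfl) (fun _ _ => rfl)

instance : IMul M ℕ where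
  out := intF_rec (M := M) (f := fun a b : ℕ => a * b) (a := fun _ => 0) (s := fun a _ x => x + a)
    (IntF.const _) (IntF.add IntF.snd' (IntF.fst IntF.fst')) (fun _ => rfl) (fun _ _ => rfl)

theorem intF_pow2' : IntF M (fun n : ℕ => 2 ^ n) := by
  have h := intF_rec (M := M) (γ := ℕ) (f := fun _ b : ℕ => 2 ^ b) (a := fun _ => 1)
    (s := fun _ _ x => x * 2) (IntF.const _) (IntF.mul IntF.snd' (IntF.const _)) (fun _ => rfl)
    (fun _ _ => rfl)
  exact IntF.comp₂ (p := fun _ b : ℕ => 2 ^ b) h (IntF.const 0) IntF.id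

theorem intF_pair {f g : γ → ℕ} (hf : IntF M f) (hg : IntF M g) :
    IntF M (fun c => Nat.pair (f c) (g c)) := by
  unfold Nat.pair
  exact IntF.ite (int_ltn hf hg) (IntF.add (IntF.mul hg hg) hf)
    (IntF.add (IntF.add (IntF.mul hf hf) hf) hg)

theorem intF_unpair {f : γ → ℕ} (hf : IntF M f) : IntF M (fun c => Nat.unpair (f c)) := by
  refine IntF.comp (g := Nat.unpair) ?_ hf
  refine IntF.of_rel (r := fun n p => Nat.pair p.1 p.2 = n)
    (Int.eq (intF_pair (IntF.fst IntF.snd') (IntF.snd IntF.snd')) IntF.fst') fun n p => ?_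
  constructor
  · rintro rfl
    simp
  · rintro rfl
    simp

/-- The `k`-th binary digit of `j` is one. -/
def Bit (j k : ℕ) : Prop := ∃ a b, b < 2 ^ k ∧ j = (2 * a + 1) * 2 ^ k + b

theorem bit_iff (j k : ℕ) : Bit j k ↔ j.testBit k = true := by
  rw [Nat.testBit_eq_decide_div_mod_eq, decide_eq_true_eq]
  have hp : 0 < 2 ^ k := by positivity
  constructor
  · rintro ⟨a, b, hb, rfl⟩
    rw [Nat.add_comm, Nat.add_mul_div_right _ _ hp, Nat.div_eq_of_lt hb]
    omega
  · intro h
    refine ⟨j / 2 ^ k / 2, j % 2 ^ k, Nat.mod_lt _ hp, ?_⟩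
    have h1 : 2 * (j / 2 ^ k / 2) + 1 = j / 2 ^ k := by omega
    rw [h1, Nat.mul_comm]
    exact (Nat.div_add_mod j (2 ^ k)).symm

theorem exists_bits (s : Finset ℕ) : ∃ j, ∀ k, Bit j k ↔ k ∈ s := by
  induction s using Finset.induction_on with
  | empty => exact ⟨0, fun k => by simp [bit_iff]⟩
  | insert a s _ ih =>
    obtain ⟨j, hj⟩ := ih
    refine ⟨2 ^ a ||| j, fun k => ?_⟩
    rw [bit_iff, Nat.testBit_or, Nat.testBit_two_pow, Finset.mem_insert, ← hj, bit_iff]
    rw [Bool.or_eq_true, decide_eq_true_eq, eq_comm]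

theorem int_bit {f g : γ → ℕ} (hf : IntF M f) (hg : IntF M g) :
    Int M (fun c => Bit (f c) (g c)) := by
  have h2 := intF_pow2' (M := M)
  have h : Int M (fun q : ℕ × ℕ => Bit q.1 q.2) := by
    unfold Bit
    refine Int.ex (Int.ex (Int.and (int_ltn IntF.snd' (IntF.comp h2 (IntF.snd (IntF.fst IntF.fst'))))
      (Int.eq (IntF.fst (IntF.fst IntF.fst')) (IntF.add (IntF.mul (intF_succ (IntF.mul (IntF.const _)
        (IntF.snd IntF.fst'))) (IntF.comp h2 (IntF.snd (IntF.fst IntF.fst')))) IntF.snd'))))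
  exact Int.comp₂ h hf hg

omit hS in
/-- Finite sets are internal. -/
theorem int_finite {s : Set α} (hs : s.Finite) : Int M (fun a => a ∈ s) := by
  induction s, hs using Set.Finite.induction_on with
  | empty => exact (Int.const False).congr fun a => by simp
  | insert _ _ ih => exact ((Int.eq IntF.id (IntF.const _)).or ih).congr fun a => Iff.rfl

/-- A finite set is enumerated by an internal function. -/
theorem exists_enum [Nonempty α] {s : Set α} (hs : s.Finite) :
    ∃ n : ℕ, ∃ h : IFun M ℕ α, ∀ a ∈ s, ∃ k, k < n ∧ h k = a := by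
  obtain ⟨n, v, hv⟩ := hs.fin_param
  classical
  let w : ℕ → α := fun k => if h : k < n then v ⟨k, h⟩ else Classical.arbitrary α
  refine ⟨n, ⟨fun m => w (min m n), intF_trunc w n⟩, fun a ha => ?_⟩
  have : a ∈ Set.range v := hv.2 ▸ ha
  obtain ⟨k, rfl⟩ := this
  refine ⟨k, k.2, ?_⟩
  show w (min k n) = v k
  rw [min_eq_left k.2.le]
  simp [w]

/-- Finiteness of an internal set is internal. -/
theorem int_isFinite [Nonempty α] : Int M (fun s : IPow M α => {a | a ∈ s}.Finite) := by
  have h : Int M (fun s : IPow M α => ∃ n : ℕ, ∃ h : IFun M ℕ α, ∀ a, a ∈ s →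
      ∃ k, k < n ∧ h k = a) := by
    refine Int.ex (Int.ex (Int.all (Int.imp (Int.mem IntF.snd' (IntF.fst (IntF.fst IntF.fst')))
      (Int.ex (Int.and (int_ltn IntF.snd' (IntF.snd (IntF.fst (IntF.fst IntF.fst'))))
        (Int.eq (IntF.app (IntF.snd (IntF.fst IntF.fst')) IntF.snd') (IntF.snd IntF.fst')))))))
  refine h.congr fun s => ⟨?_, fun hs => exists_enum hs⟩
  rintro ⟨n, h, hh⟩
  refine ((Set.finite_Iio n).image h).subset fun a ha => ?_
  obtain ⟨k, hk, rfl⟩ := hh a ha
  exact ⟨k, hk, rfl⟩

/-- The least element principle gives internal choice functions into `ℕ`. -/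
theorem exists_nat_choice {r : γ → ℕ → Prop} (hr : Int M (fun q : γ × ℕ => r q.1 q.2))
    (h : ∀ c, ∃ n, r c n) : ∃ f : γ → ℕ, IntF M f ∧ ∀ c, r c (f c) := by
  classical
  refine ⟨fun c => Nat.find (h c), ?_, fun c => Nat.find_spec (h c)⟩
  refine IntF.of_rel (r := fun c n => r c n ∧ ∀ m, m < n → ¬ r c m) ?_ fun c n => ?_
  · exact Int.and hr (Int.all (Int.imp (int_ltn IntF.snd' (IntF.snd IntF.fst'))
      (Int.not (Int.comp₂ hr (IntF.fst IntF.fst') IntF.snd'))))
  · exact (Nat.find_eq_iff (h c)).symm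

end Pool.Agent.Helper672.ZFA.H154
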