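import Mathlib
import Pool.Agent.H635R2.LS
import Pool.Agent.H635R2.Coll
import Pool.Agent.H635R2.Zf
import Pool.Agent.H154Z.Clone.Std

/-! A countable well-founded model of ZF with choice. -/

set_option autoImplicit false

namespace Pool.Agent.Helper672.ZFA.H154

open FirstOrder FirstOrder.Language H635 Pool.Agent.Helper672
open Pool.Agent.Helper672.Plain (LSet)
open Pool.Agent.H635Amen (ZF)

universe u

/-- The universe of sets as a structure. -/
def VV : Type 1 := ZFSet.{0}

/-- The underlying set. -/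
def VV.z (x : VV) : ZFSet.{0} := x

instance : LSet.Structure VV where
  funMap := fun f => Empty.elim f
  RelMap := fun {_} r v => match r, v with
    | Plain.Sym.mem, v => (v 0).z ∈ (v 1).z

theorem vv_mem {x y : VV} : Plain.Mem x y ↔ x.z ∈ y.z := Iff.rfl

theorem vv_zf : ZF VV where
  ext x y h := ZFSet.ext h
  pairing x y := ⟨({x.z, y.z} : ZFSet.{0}), fun _ => ZFSet.mem_pair⟩
  union x := ⟨ZFSet.sUnion x.z, fun _ => ZFSet.mem_sUnion.trans ⟨fun ⟨y, h1, h2⟩ => ⟨y, h1, h2⟩,
    fun ⟨y, h1, h2⟩ => ⟨y, h1, h2⟩⟩⟩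
  power x := ⟨ZFSet.powerset x.z, fun z => ZFSet.mem_powerset.trans
    ⟨fun h _ hw => h hw, fun h _ hw => h _ hw⟩⟩
  infinity := ⟨ZFSet.omega, ⟨(∅ : ZFSet.{0}), ZFSet.omega_zero, fun z => ZFSet.notMem_empty z⟩,
    fun n hn => ⟨(insert n.z n.z : ZFSet.{0}), ZFSet.omega_succ hn, fun z =>
      ZFSet.mem_insert_iff.trans or_comm⟩⟩
  separation S _ x := ⟨ZFSet.sep (fun z => z ∈ S) x.z, fun _ => ZFSet.mem_sep⟩
  foundation x h := by
    obtain ⟨y, hy, h1⟩ := ZFSet.mem_wf.has_min {y : ZFSet.{0} | y ∈ x.z} h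
    exact ⟨y, hy, fun z hz => h1 z hz⟩
  replacement F _ a h := by
    choose f hf using h
    refine ⟨ZFSet.range (fun x : {x : ZFSet.{0} // x ∈ a.z} => (f x.1 x.2).z), fun y => ?_⟩
    rw [vv_mem]
    refine ZFSet.mem_range.trans ⟨?_, ?_⟩
    · rintro ⟨x, hx⟩
      have hx' : f x.1 x.2 = y := hx
      exact ⟨x.1, x.2, hx' ▸ (hf x.1 x.2).1⟩
    · rintro ⟨x, hx, h1⟩
      exact ⟨⟨x, hx⟩, ((hf x hx).2 y h1).symm⟩

/-- Choice in the form of transversals. -/
def Transv (M : Type u) [LSet.Structure M] : Prop :=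
  ∀ a : M, ∃ c : M, ∀ x, Plain.Mem x a →
    (∃ y, Plain.Mem y x ∧ ∀ x', Plain.Mem x' a → Plain.Mem y x' → x' = x) →
      ∃ y, Plain.Mem y x ∧ Plain.Mem y c ∧ ∀ y', Plain.Mem y' x → Plain.Mem y' c → y' = y

theorem vv_transv : Transv VV := by
  intro a
  classical
  let T := {x : {x : ZFSet.{0} // x ∈ a.z} //
    ∃ y : ZFSet.{0}, y ∈ x.1 ∧ ∀ x' ∈ a.z, y ∈ x' → x' = x.1}
  refine ⟨ZFSet.range (fun x : T => x.2.choose), fun x hx hy => ?_⟩
  let x₀ : T := ⟨⟨x, hx⟩, hy⟩
  refine ⟨x₀.2.choose, x₀.2.choose_spec.1, ZFSet.mem_range.2 ⟨x₀, rfl⟩, fun y' h1 h2 => ?_⟩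
  obtain ⟨x₁, rfl⟩ := ZFSet.mem_range.1 h2
  have h3 : x = x₁.1.1 := x₁.2.choose_spec.2 x hx h1
  have h4 : x₁ = x₀ := Subtype.ext (Subtype.ext h3.symm)
  rw [h4]

theorem transv_sub {M : Type u} [LSet.Structure M] (S : LSet.ElementarySubstructure M)
    (h : Transv M) : Transv S := by
  intro a
  obtain ⟨c, hc⟩ := meets S (p := fun c => ∀ x, Plain.Mem x (a : M) →
    (∃ y, Plain.Mem y x ∧ ∀ x', Plain.Mem x' (a : M) → Plain.Mem y x' → x' = x) →
      ∃ y, Plain.Mem y x ∧ Plain.Mem y c ∧ ∀ y', Plain.Mem y' x → Plain.Mem y' c → y' = y)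
    (DA.all (DA.imp (DA.mem (TA.var _) (TA.const a.2)) (DA.imp (DA.ex (DA.and
      (DA.mem (TA.var _) (TA.var _)) (DA.all (DA.imp (DA.mem (TA.var _) (TA.const a.2))
        (DA.imp (DA.mem (TA.var _) (TA.var _)) (DA.eq (TA.var _) (TA.var _)))))))
      (DA.ex (DA.and (DA.mem (TA.var _) (TA.var _)) (DA.and (DA.mem (TA.var _) (TA.var _))
        (DA.all (DA.imp (DA.mem (TA.var _) (TA.var _)) (DA.imp (DA.mem (TA.var _) (TA.var _))
          (DA.eq (TA.var _) (TA.var _))))))))))) (h a)
  refine ⟨c, fun x hx ⟨y, hy, hy'⟩ => ?_⟩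
  have h1 := hc x ((mem_coe S).1 hx) ⟨y, (mem_coe S).1 hy, fun x' h1 h2 => by
    by_contra hne
    obtain ⟨x'', h3, h4, h5⟩ := meets S (p := fun x' => Plain.Mem x' (a : M) ∧
      Plain.Mem (y : M) x' ∧ ¬ x' = (x : M)) (DA.and (DA.mem (TA.var _) (TA.const a.2))
        (DA.and (DA.mem (TA.const y.2) (TA.var _)) (DA.not (DA.eq (TA.var _) (TA.const x.2)))))
      ⟨x', h1, h2, hne⟩
    exact h5 (congrArg Subtype.val (hy' x'' ((mem_coe S).2 h3) ((mem_coe S).2 h4)))⟩
  obtain ⟨y₀, h2, h3, h4⟩ := meets S (p := fun y => Plain.Mem y (x : M) ∧ Plain.Mem y (c : M) ∧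
      ∀ y', Plain.Mem y' (x : M) → Plain.Mem y' (c : M) → y' = y)
    (DA.and (DA.mem (TA.var _) (TA.const x.2)) (DA.and (DA.mem (TA.var _) (TA.const c.2))
      (DA.all (DA.imp (DA.mem (TA.var _) (TA.const x.2)) (DA.imp (DA.mem (TA.var _) (TA.const c.2))
        (DA.eq (TA.var _) (TA.var _))))))) h1
  exact ⟨y₀, (mem_coe S).2 h2, (mem_coe S).2 h3, fun y' h5 h6 =>
    Subtype.ext (h4 y' ((mem_coe S).1 h5) ((mem_coe S).1 h6))⟩

theorem exists_ground_model : ∃ (M : Type 1) (_ : LSet.Structure M), Countable M ∧ ZF M ∧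
    Transv M ∧ WellFounded (fun x y : M => Plain.Mem x y) := by
  have hc : Countable (Σ l, LSet.Functions l) :=
    ⟨⟨fun x => Empty.elim x.2, fun x => Empty.elim x.2⟩⟩
  have hc' : Countable (Σ l, LSet.Relations l) := ⟨⟨fun x => x.1, by
    rintro ⟨l, r⟩ ⟨l', r'⟩ h
    obtain rfl : l = l' := h
    cases r
    cases r'
    rfl⟩⟩
  have hcard : LSet.card ≤ Cardinal.aleph0 := by
    have : Countable LSet.Symbols := inferInstanceAs (Countable
      ((Σ l, LSet.Functions l) ⊕ (Σ l, LSet.Relations l)))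
    exact Cardinal.mk_le_aleph0
  have hzf := vv_zf
  have hinf : Infinite VV := by
    refine Infinite.of_injective (fun n : ℕ => (Ordinal.toZFSet (n : Ordinal.{0}) : ZFSet.{0})) ?_
    intro m n h
    exact_mod_cast Ordinal.toZFSet_injective h
  obtain ⟨S, -, hS⟩ := exists_elementarySubstructure_card_eq LSet (∅ : Set VV)
    (Cardinal.aleph0.{1}) le_rfl (by simp) (by simpa using hcard) (by simp)
  refine ⟨S, inferInstance, ?_, zf_substructure S, transv_sub S vv_transv, ?_⟩
  · rw [← Cardinal.mk_le_aleph0_iff]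
    simpa using hS.le
  · refine Subrelation.wf (r := InvImage (fun x y : ZFSet.{0} => x ∈ y) fun x : S => (x : VV).z)
      (fun h => (mem_coe S).1 h) (InvImage.wf _ ZFSet.mem_wf)

section

variable {M : Type u} [L.Structure M] [hM : IsModel M]

theorem std_of_wf (h : WellFounded (fun x y : M => Mem x y)) : Std M where
  surj := by
    intro n
    have hw : WellFounded (fun a b : INat M => a < b) :=
      Subrelation.wf (r := InvImage (fun x y : M => Mem x y) INat.val) (fun h => h) (InvImage.wf _ h)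
    induction n using hw.induction with
    | _ n ih =>
      rcases INat.eq_zero_or_succ n with rfl | ⟨m, rfl⟩
      · exact ⟨0, rfl⟩
      · obtain ⟨k, rfl⟩ := ih m (INat.lt_succ_self m)
        exact ⟨k + 1, rfl⟩

variable (M) in
/-- Choice for internal relations. -/
def IAC : Prop := ∀ (α β : Type u) [ITy M α] [ITy M β] (r : α → β → Prop),
  Int M (fun q : α × β => r q.1 q.2) → (∀ a, ∃ b, r a b) → ∃ f : α → β, IntF M f ∧ ∀ a, r a (f a)

theorem iac_of (h : ∀ a : M, ∃ c : M, ∀ x, Mem x a →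
    (∃ y, Mem y x ∧ ∀ x', Mem x' a → Mem y x' → x' = x) →
      ∃ y, Mem y x ∧ Mem y c ∧ ∀ y', Mem y' x → Mem y' c → y' = y) : IAC M := by
  intro α β _ _ r hr hex
  let sc : α → IPow M (α × β) := fun a => sep M fun q => q.1 = a ∧ r q.1 q.2
  have h0 : Int M (fun x : α × (α × β) => x.2.1 = x.1 ∧ r x.2.1 x.2.2) := by (repeat' (first | with_reducible exact IntF.id | with_reducible exact IntF.fst' | with_reducible exact IntF.snd' | with_reducible exact IntF.const _ | with_reducible exact Int.const _ | assumption | with_reducible apply Int.and | with_reducible apply Int.or | with_reducible apply Int.not | with_reducible apply Int.imp | with_reducible apply Int.iff | with_reducible apply Int.eq | with_reducible apply Int.mem | with_reducible apply Int.ltN | with_reducible_and_instances apply Int.le | with_reducible apply Int.all | with_reducible apply Int.ex | with_reducible apply IntF.fst | with_reducible apply IntF.snd | with_reducible apply IntF.app | with_reducible apply IntF.inl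 | with_reducible apply IntF.inr | with_reducible_and_instances apply IntF.mul | with_reducible_and_instances apply IntF.add | with_reducible_and_instances apply IntF.smul | with_reducible apply IntF.val | with_reducible apply IntF.mk | with_reducible apply IntF.ite | (with_reducible refine Int.comp ?_ ?_; assumption) | (with_reducible refine Int.comp₂ ?_ ?_ ?_; assumption) | (with_reducible refine Int.comp₃ ?_ ?_ ?_ ?_; assumption) | (with_reducible refine Int.comp₄ ?_ ?_ ?_ ?_ ?_; assumption) | (with_reducible refine IntF.comp ?_ ?_; assumption) | (with_reducible refine IntF.comp₂ ?_ ?_ ?_; assumption) | (with_reducible refine IntF.comp₃ ?_ ?_ ?_ ?_; assumption) | with_reducible apply IntF.pair))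
  have hsc : ∀ a q, q ∈ sc a ↔ q.1 = a ∧ r q.1 q.2 := fun a q =>
    mem_sep (Int.slice (p := fun (a : α) (q : α × β) => q.1 = a ∧ r q.1 q.2) h0 a)
  have h1 : IntF M sc := IntF.sep (p := fun (a : α) (q : α × β) => q.1 = a ∧ r q.1 q.2) h0
  have h2 : Int M (fun s : IPow M (α × β) => ∃ a, sc a = s) := by (repeat' (first | with_reducible exact IntF.id | with_reducible exact IntF.fst' | with_reducible exact IntF.snd' | with_reducible exact IntF.const _ | with_reducible exact Int.const _ | assumption | with_reducible apply Int.and | with_reducible apply Int.or | with_reducible apply Int.not | with_reducible apply Int.imp | with_reducible apply Int.iff | with_reducible apply Int.eq | with_reducible apply Int.mem | with_reducible apply Int.ltN | with_reducible_and_instances apply Int.le | with_reducible apply Int.all | with_reducible apply Int.ex | with_reducible apply IntF.fst | with_reducible apply IntF.snd | with_reducible apply IntF.app | with_reducible apply IntF.inl | with_reducible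 apply IntF.inr | with_reducible_and_instances apply IntF.mul | with_reducible_and_instances apply IntF.add | with_reducible_and_instances apply IntF.smul | with_reducible apply IntF.val | with_reducible apply IntF.mk | with_reducible apply IntF.ite | (with_reducible refine Int.comp ?_ ?_; assumption) | (with_reducible refine Int.comp₂ ?_ ?_ ?_; assumption) | (with_reducible refine Int.comp₃ ?_ ?_ ?_ ?_; assumption) | (with_reducible refine Int.comp₄ ?_ ?_ ?_ ?_ ?_; assumption) | (with_reducible refine IntF.comp ?_ ?_; assumption) | (with_reducible refine IntF.comp₂ ?_ ?_ ?_; assumption) | (with_reducible refine IntF.comp₃ ?_ ?_ ?_ ?_; assumption) | with_reducible apply IntF.pair))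
  obtain ⟨c, hc⟩ := h h2.small.elt
  have key : ∀ a, ∃ b, (r a b ∧ Mem (code (a, b)) c) ∧
      ∀ b', r a b' ∧ Mem (code (a, b')) c → b' = b := by
    intro a
    obtain ⟨b, hb⟩ := hex a
    obtain ⟨y, h3, h4, h5⟩ := hc (code (sc a)) (h2.small.mem.2 ⟨_, ⟨a, rfl⟩, rfl⟩)
      ⟨code (a, b), mem_code_iff.2 ((hsc a _).2 ⟨rfl, hb⟩), fun x' h3 h4 => by
        obtain ⟨_, ⟨a', rfl⟩, rfl⟩ := h2.small.mem.1 h3
        have := ((hsc a' _).1 (mem_code_iff.1 h4)).1
        rw [show a' = a from this.symm]⟩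
    obtain ⟨⟨a', b'⟩, h6, rfl⟩ := mem_code_pow.1 h3
    obtain ⟨rfl, h7⟩ := (hsc a _).1 h6
    refine ⟨b', ⟨h7, h4⟩, fun b'' h8 => ?_⟩
    have : (a', b'') = (a', b') :=
      ITy.inj (h5 _ (mem_code_iff.2 ((hsc a' (a', b'')).2 ⟨rfl, h8.1⟩)) h8.2)
    exact congrArg Prod.snd this
  choose f hf hf' using key
  refine ⟨f, ?_, fun a => (hf a).1⟩
  refine IntF.of_rel (r := fun a b => r a b ∧ Mem (code (a, b)) c) (Int.and hr ⟨c, fun _ => Iff.rfl⟩)
    fun a b => ⟨fun h => (hf' a b h).symm, fun h => h ▸ hf a⟩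

end

end Pool.Agent.Helper672.ZFA.H154
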