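import Mathlib
import Pool.Agent.H635R2.Zf
import Pool.Agent.H154Z.Clone.Ground

/-! Adding uncountably many Cohen reals with countable supports and flips of bits. -/

set_option autoImplicit false

namespace Pool.Agent.Helper672.ZFA.H154

open FirstOrder FirstOrder.Language H635 Pool.Agent.Helper672

universe u

variable (M : Type u) [L.Structure M] [hM : IsModel M] [hS : Std M]

/-- The columns. -/
abbrev II : Type u := IPow M (INat M)

/-- The cells. -/
abbrev Cell : Type u := II M × ℕ

instance : Nonempty (II M) := ⟨sep M fun _ => False⟩

variable {M} in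
/-- Conditions have a finite domain. -/
def IsCond (p : IPow M (Cell M) × IPow M (Cell M)) : Prop := {c | c ∈ p.1}.Finite

instance : Fact (Int M (IsCond (M := M))) :=
  ⟨Int.comp (p := fun s : IPow M (Cell M) => {a | a ∈ s}.Finite) int_isFinite IntF.fst'⟩

/-- The notion of forcing. -/
abbrev PP : Type u := {p : IPow M (Cell M) × IPow M (Cell M) // IsCond p}

instance : Preorder (PP M) where
  le p q := ∀ c, c ∈ q.1.1 → c ∈ p.1.1 ∧ (c ∈ p.1.2 ↔ c ∈ q.1.2)
  le_refl _ _ h := ⟨h, Iff.rfl⟩
  le_trans _ _ _ h h' c hc := ⟨(h c (h' c hc).1).1, (h c (h' c hc).1).2.trans (h' c hc).2⟩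

variable {M} in
theorem le_def' {p q : PP M} : p ≤ q ↔ ∀ c, c ∈ q.1.1 → c ∈ p.1.1 ∧ (c ∈ p.1.2 ↔ c ∈ q.1.2) :=
  Iff.rfl

instance : ILE M (PP M) where
  out := by
    change Int M (fun q : PP M × PP M => ∀ c, c ∈ q.2.1.1 → c ∈ q.1.1.1 ∧
      (c ∈ q.1.1.2 ↔ c ∈ q.2.1.2))
    (repeat' (first | with_reducible exact IntF.id | with_reducible exact IntF.fst' | with_reducible exact IntF.snd' | with_reducible exact IntF.const _ | with_reducible exact Int.const _ | assumption | with_reducible apply Int.and | with_reducible apply Int.or | with_reducible apply Int.not | with_reducible apply Int.imp | with_reducible apply Int.iff | with_reducible apply Int.eq | with_reducible apply Int.mem | with_reducible apply Int.ltN | with_reducible apply int_ltn | with_reducible apply int_len | with_reducible_and_instances apply Int.le | with_reducible apply Int.all | with_reducible apply Int.ex | with_reducible apply IntF.fst | with_reducible apply IntF.snd | with_reducible apply IntF.app | with_reducible apply IntF.inl | with_reducible apply IntF.inr | with_reducible apply intF_succ | with_reducible apply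 intF_pair | with_reducible apply intF_unpair | with_reducible apply int_bit | with_reducible apply intF_num | with_reducible_and_instances apply IntF.mul | with_reducible_and_instances apply IntF.add | with_reducible_and_instances apply IntF.smul | with_reducible apply IntF.val | with_reducible apply IntF.mk | with_reducible apply IntF.ite | (with_reducible refine Int.comp ?_ ?_; assumption) | (with_reducible refine Int.comp₂ ?_ ?_ ?_; assumption) | (with_reducible refine Int.comp₃ ?_ ?_ ?_ ?_; assumption) | (with_reducible refine Int.comp₄ ?_ ?_ ?_ ?_ ?_; assumption) | (with_reducible refine IntF.comp ?_ ?_; assumption) | (with_reducible refine IntF.comp₂ ?_ ?_ ?_; assumption) | (with_reducible refine IntF.comp₃ ?_ ?_ ?_ ?_; assumption) | with_reducible apply IntF.pair))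

/-- The group of flips. -/
def Gm : Type u := IPow M (Cell M)

noncomputable instance : ITy M (Gm M) := inferInstanceAs (ITy M (IPow M (Cell M)))

variable {M}

/-- The set of flipped cells. -/
def Gm.s (π : Gm M) : IPow M (Cell M) := π

theorem intF_s' : IntF M (fun π : Gm M => π.s) := IntF.id

theorem intF_s {γ : Type u} [ITy M γ] {f : γ → Gm M} (hf : IntF M f) :
    IntF M (fun c => (f c).s) := hf

theorem Gm.ext' {π σ : Gm M} (h : ∀ c, c ∈ π.s ↔ c ∈ σ.s) : π = σ := IPow.ext' h

/-- Symmetric difference. -/
noncomputable def sd (s t : IPow M (Cell M)) : IPow M (Cell M) := sep M fun c => ¬ (c ∈ s ↔ c ∈ t)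

theorem mem_sd {s t : IPow M (Cell M)} {c : Cell M} : c ∈ sd s t ↔ ¬ (c ∈ s ↔ c ∈ t) :=
  mem_sep (by (repeat' (first | with_reducible exact IntF.id | with_reducible exact IntF.fst' | with_reducible exact IntF.snd' | with_reducible exact IntF.const _ | with_reducible exact Int.const _ | assumption | with_reducible apply Int.and | with_reducible apply Int.or | with_reducible apply Int.not | with_reducible apply Int.imp | with_reducible apply Int.iff | with_reducible apply Int.eq | with_reducible apply Int.mem | with_reducible apply Int.ltN | with_reducible apply int_ltn | with_reducible apply int_len | with_reducible_and_instances apply Int.le | with_reducible apply Int.all | with_reducible apply Int.ex | with_reducible apply IntF.fst | with_reducible apply IntF.snd | with_reducible apply IntF.app | with_reducible apply IntF.inl | with_reducible apply IntF.inr | with_reducible apply intF_succ | with_reducible apply intF_pair | with_reducible apply intF_unpair | with_reducible apply int_bit | with_reducible apply intF_num | with_reducible_and_instances apply IntF.mul | with_reducible_and_instances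 apply IntF.add | with_reducible_and_instances apply IntF.smul | with_reducible apply IntF.val | with_reducible apply IntF.mk | with_reducible apply IntF.ite | (with_reducible refine Int.comp ?_ ?_; assumption) | (with_reducible refine Int.comp₂ ?_ ?_ ?_; assumption) | (with_reducible refine Int.comp₃ ?_ ?_ ?_ ?_; assumption) | (with_reducible refine Int.comp₄ ?_ ?_ ?_ ?_ ?_; assumption) | (with_reducible refine IntF.comp ?_ ?_; assumption) | (with_reducible refine IntF.comp₂ ?_ ?_ ?_; assumption) | (with_reducible refine IntF.comp₃ ?_ ?_ ?_ ?_; assumption) | with_reducible apply IntF.pair)))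

theorem intF_sd' : IntF M (fun q : IPow M (Cell M) × IPow M (Cell M) => sd q.1 q.2) :=
  IntF.sep (p := fun (q : IPow M (Cell M) × IPow M (Cell M)) c => ¬ (c ∈ q.1 ↔ c ∈ q.2)) (by (repeat' (first | with_reducible exact IntF.id | with_reducible exact IntF.fst' | with_reducible exact IntF.snd' | with_reducible exact IntF.const _ | with_reducible exact Int.const _ | assumption | with_reducible apply Int.and | with_reducible apply Int.or | with_reducible apply Int.not | with_reducible apply Int.imp | with_reducible apply Int.iff | with_reducible apply Int.eq | with_reducible apply Int.mem | with_reducible apply Int.ltN | with_reducible apply int_ltn | with_reducible apply int_len | with_reducible_and_instances apply Int.le | with_reducible apply Int.all | with_reducible apply Int.ex | with_reducible apply IntF.fst | with_reducible apply IntF.snd | with_reducible apply IntF.app | with_reducible apply IntF.inl | with_reducible apply IntF.inr | with_reducible apply intF_succ | with_reducible apply intF_pair | with_reducible apply intF_unpair | with_reducible apply int_bit | with_reducible apply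 intF_num | with_reducible_and_instances apply IntF.mul | with_reducible_and_instances apply IntF.add | with_reducible_and_instances apply IntF.smul | with_reducible apply IntF.val | with_reducible apply IntF.mk | with_reducible apply IntF.ite | (with_reducible refine Int.comp ?_ ?_; assumption) | (with_reducible refine Int.comp₂ ?_ ?_ ?_; assumption) | (with_reducible refine Int.comp₃ ?_ ?_ ?_ ?_; assumption) | (with_reducible refine Int.comp₄ ?_ ?_ ?_ ?_ ?_; assumption) | (with_reducible refine IntF.comp ?_ ?_; assumption) | (with_reducible refine IntF.comp₂ ?_ ?_ ?_; assumption) | (with_reducible refine IntF.comp₃ ?_ ?_ ?_ ?_; assumption) | with_reducible apply IntF.pair)))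

theorem mem_emp {α : Type u} [ITy M α] {c : α} : ¬ c ∈ sep M (fun _ : α => False) :=
  fun h => (mem_sep (Int.const False)).1 h

noncomputable instance : Group (Gm M) where
  mul π σ := sd π.s σ.s
  one := sep M fun _ : Cell M => False
  inv π := π
  mul_assoc a b c := Gm.ext' fun x => by
    change x ∈ sd (sd a.s b.s) c.s ↔ x ∈ sd a.s (sd b.s c.s)
    simp only [mem_sd]
    tauto
  one_mul a := Gm.ext' fun x => by
    change x ∈ sd (sep M fun _ : Cell M => False) a.s ↔ x ∈ a.s
    have := mem_emp (M := M) (c := x)
    simp only [mem_sd]
    tauto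
  mul_one a := Gm.ext' fun x => by
    change x ∈ sd a.s (sep M fun _ : Cell M => False) ↔ x ∈ a.s
    have := mem_emp (M := M) (c := x)
    simp only [mem_sd]
    tauto
  inv_mul_cancel a := Gm.ext' fun x => by
    change x ∈ sd a.s a.s ↔ x ∈ (sep M fun _ : Cell M => False)
    have := mem_emp (M := M) (c := x)
    simp only [mem_sd]
    tauto

theorem mem_mul {π σ : Gm M} {c : Cell M} : c ∈ (π * σ).s ↔ ¬ (c ∈ π.s ↔ c ∈ σ.s) := mem_sd

theorem mem_one {c : Cell M} : ¬ c ∈ (1 : Gm M).s := mem_emp

theorem inv_eq' (π : Gm M) : π⁻¹ = π := rfl

instance : IMul M (Gm M) := ⟨intF_sd'⟩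

instance : IInv M (Gm M) := ⟨IntF.id⟩

noncomputable instance : MulAction (Gm M) (PP M) where
  smul π p := ⟨(p.1.1, sd p.1.2 π.s), p.2⟩
  one_smul p := Subtype.ext (Prod.ext rfl (IPow.ext' fun x => by
    change x ∈ sd p.1.2 (1 : Gm M).s ↔ _
    have := mem_one (M := M) (c := x)
    simp only [mem_sd]
    tauto))
  mul_smul a b p := Subtype.ext (Prod.ext rfl (IPow.ext' fun x => by
    change x ∈ sd p.1.2 (a * b).s ↔ x ∈ sd (sd p.1.2 b.s) a.s
    simp only [mem_sd, mem_mul]
    tauto))

theorem smul_dom (π : Gm M) (p : PP M) : (π • p).1.1 = p.1.1 := rfl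

theorem smul_val {π : Gm M} {p : PP M} {c : Cell M} :
    c ∈ (π • p).1.2 ↔ ¬ (c ∈ p.1.2 ↔ c ∈ π.s) := mem_sd

instance : ISMul M (Gm M) (PP M) where
  out := by
    refine IntF.mk ?_
    change IntF M (fun q : Gm M × PP M => (q.2.1.1, sd q.2.1.2 q.1.s))
    exact IntF.pair (IntF.fst (IntF.val IntF.snd'))
      (IntF.comp₂ intF_sd' (IntF.snd (IntF.val IntF.snd')) (intF_s IntF.fst'))

variable (M) in
/-- The supports: countable sets of columns. -/
abbrev Lm : Type u := IFun M ℕ (II M)

/-- The flips that leave the columns of a support alone. -/
def UU (l : Lm M) (π : Gm M) : Prop := ∀ k n, ¬ (l k, n) ∈ π.s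

theorem int_UU : Int M (fun q : Lm M × Gm M => UU q.1 q.2) := by
  unfold UU
  refine Int.all (Int.all (Int.not (Int.mem ?_ (intF_s ?_)))) <;> (repeat' (first | with_reducible exact IntF.id | with_reducible exact IntF.fst' | with_reducible exact IntF.snd' | with_reducible exact IntF.const _ | with_reducible exact Int.const _ | assumption | with_reducible apply Int.and | with_reducible apply Int.or | with_reducible apply Int.not | with_reducible apply Int.imp | with_reducible apply Int.iff | with_reducible apply Int.eq | with_reducible apply Int.mem | with_reducible apply Int.ltN | with_reducible apply int_ltn | with_reducible apply int_len | with_reducible_and_instances apply Int.le | with_reducible apply Int.all | with_reducible apply Int.ex | with_reducible apply IntF.fst | with_reducible apply IntF.snd | with_reducible apply IntF.app | with_reducible apply IntF.inl | with_reducible apply IntF.inr | with_reducible apply intF_succ | with_reducible apply intF_pair | with_reducible apply intF_unpair | with_reducible apply int_bit | with_reducible apply intF_num | with_reducible_and_instances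 apply IntF.mul | with_reducible_and_instances apply IntF.add | with_reducible_and_instances apply IntF.smul | with_reducible apply IntF.val | with_reducible apply IntF.mk | with_reducible apply IntF.ite | (with_reducible refine Int.comp ?_ ?_; assumption) | (with_reducible refine Int.comp₂ ?_ ?_ ?_; assumption) | (with_reducible refine Int.comp₃ ?_ ?_ ?_ ?_; assumption) | (with_reducible refine Int.comp₄ ?_ ?_ ?_ ?_ ?_; assumption) | (with_reducible refine IntF.comp ?_ ?_; assumption) | (with_reducible refine IntF.comp₂ ?_ ?_ ?_; assumption) | (with_reducible refine IntF.comp₃ ?_ ?_ ?_ ?_; assumption) | with_reducible apply IntF.pair))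

variable (M) in
/-- The symmetric system. -/
noncomputable def SS : SymSys M (PP M) (Gm M) (Lm M) where
  smul_le π p q h c hc := by
    have := h c hc
    rw [smul_val, smul_val]
    exact ⟨this.1, by rw [this.2]⟩
  U := UU
  int_U := int_UU
  nonempty := ⟨⟨fun _ => Classical.arbitrary _, IntF.const _⟩⟩
  one _ _ _ := mem_one
  mul l a b ha hb k n := by
    have h1 := ha k n
    have h2 := hb k n
    rw [mem_mul]
    tauto
  inv _ _ h := h
  dir l l' := by
    have hl : IntF M (fun a => l a) := l.int
    have hl' : IntF M (fun a => l' a) := l'.int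
    refine ⟨⟨fun m => if (Nat.unpair m).1 = 0 then l (Nat.unpair m).2 else l' (Nat.unpair m).2,
      by (repeat' (first | with_reducible exact IntF.id | with_reducible exact IntF.fst' | with_reducible exact IntF.snd' | with_reducible exact IntF.const _ | with_reducible exact Int.const _ | assumption | with_reducible apply Int.and | with_reducible apply Int.or | with_reducible apply Int.not | with_reducible apply Int.imp | with_reducible apply Int.iff | with_reducible apply Int.eq | with_reducible apply Int.mem | with_reducible apply Int.ltN | with_reducible apply int_ltn | with_reducible apply int_len | with_reducible_and_instances apply Int.le | with_reducible apply Int.all | with_reducible apply Int.ex | with_reducible apply IntF.fst | with_reducible apply IntF.snd | with_reducible apply IntF.app | with_reducible apply IntF.inl | with_reducible apply IntF.inr | with_reducible apply intF_succ | with_reducible apply intF_pair | with_reducible apply intF_unpair | with_reducible apply int_bit | with_reducible apply intF_num | with_reducible_and_instances apply IntF.mul | with_reducible_and_instances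 apply IntF.add | with_reducible_and_instances apply IntF.smul | with_reducible apply IntF.val | with_reducible apply IntF.mk | with_reducible apply IntF.ite | (with_reducible refine Int.comp ?_ ?_; assumption) | (with_reducible refine Int.comp₂ ?_ ?_ ?_; assumption) | (with_reducible refine Int.comp₃ ?_ ?_ ?_ ?_; assumption) | (with_reducible refine Int.comp₄ ?_ ?_ ?_ ?_ ?_; assumption) | (with_reducible refine IntF.comp ?_ ?_; assumption) | (with_reducible refine IntF.comp₂ ?_ ?_ ?_; assumption) | (with_reducible refine IntF.comp₃ ?_ ?_ ?_ ?_; assumption) | with_reducible apply IntF.pair))⟩, fun a ha => ⟨fun k n => ?_, fun k n => ?_⟩⟩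
    · simpa using ha (Nat.pair 0 k) n
    · simpa using ha (Nat.pair 1 k) n
  conj π l := ⟨l, fun a ha k n => by
    have := ha k n
    rw [mem_mul, mem_mul, inv_eq']
    tauto⟩

theorem SS_U {l : Lm M} {π : Gm M} : (SS M).U l π ↔ UU l π := Iff.rfl

variable (M) in
/-- Codes of names of sets of natural numbers. -/
abbrev RB : Type u := IPow M (INat M × PP M) × Lm M

/-- The code is invariant. -/
def SymT (b : RB M) : Prop := ∀ π, UU b.2 π → ∀ a p, (a, p) ∈ b.1 → (a, π • p) ∈ b.1

theorem int_symT : Int M (SymT (M := M)) := by
  have h := int_UU (M := M)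
  unfold SymT
  (repeat' (first | with_reducible exact IntF.id | with_reducible exact IntF.fst' | with_reducible exact IntF.snd' | with_reducible exact IntF.const _ | with_reducible exact Int.const _ | assumption | with_reducible apply Int.and | with_reducible apply Int.or | with_reducible apply Int.not | with_reducible apply Int.imp | with_reducible apply Int.iff | with_reducible apply Int.eq | with_reducible apply Int.mem | with_reducible apply Int.ltN | with_reducible apply int_ltn | with_reducible apply int_len | with_reducible_and_instances apply Int.le | with_reducible apply Int.all | with_reducible apply Int.ex | with_reducible apply IntF.fst | with_reducible apply IntF.snd | with_reducible apply IntF.app | with_reducible apply IntF.inl | with_reducible apply IntF.inr | with_reducible apply intF_succ | with_reducible apply intF_pair | with_reducible apply intF_unpair | with_reducible apply int_bit | with_reducible apply intF_num | with_reducible_and_instances apply IntF.mul | with_reducible_and_instances apply IntF.add | with_reducible_and_instances apply IntF.smul | with_reducible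 apply IntF.val | with_reducible apply IntF.mk | with_reducible apply IntF.ite | (with_reducible refine Int.comp ?_ ?_; assumption) | (with_reducible refine Int.comp₂ ?_ ?_ ?_; assumption) | (with_reducible refine Int.comp₃ ?_ ?_ ?_ ?_; assumption) | (with_reducible refine Int.comp₄ ?_ ?_ ?_ ?_ ?_; assumption) | (with_reducible refine IntF.comp ?_ ?_; assumption) | (with_reducible refine IntF.comp₂ ?_ ?_ ?_; assumption) | (with_reducible refine IntF.comp₃ ?_ ?_ ?_ ?_; assumption) | with_reducible apply IntF.pair))

/-- The elements of a coded name. -/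
def QQ (a : INat M) (p : PP M) (b : RB M) : Prop := (a, p) ∈ b.1 ∧ SymT b

theorem int_QQ : Int M (fun q : (INat M × PP M) × RB M => QQ q.1.1 q.1.2 q.2) := by
  have h := int_symT (M := M)
  unfold QQ
  (repeat' (first | with_reducible exact IntF.id | with_reducible exact IntF.fst' | with_reducible exact IntF.snd' | with_reducible exact IntF.const _ | with_reducible exact Int.const _ | assumption | with_reducible apply Int.and | with_reducible apply Int.or | with_reducible apply Int.not | with_reducible apply Int.imp | with_reducible apply Int.iff | with_reducible apply Int.eq | with_reducible apply Int.mem | with_reducible apply Int.ltN | with_reducible apply int_ltn | with_reducible apply int_len | with_reducible_and_instances apply Int.le | with_reducible apply Int.all | with_reducible apply Int.ex | with_reducible apply IntF.fst | with_reducible apply IntF.snd | with_reducible apply IntF.app | with_reducible apply IntF.inl | with_reducible apply IntF.inr | with_reducible apply intF_succ | with_reducible apply intF_pair | with_reducible apply intF_unpair | with_reducible apply int_bit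 | with_reducible apply intF_num | with_reducible_and_instances apply IntF.mul | with_reducible_and_instances apply IntF.add | with_reducible_and_instances apply IntF.smul | with_reducible apply IntF.val | with_reducible apply IntF.mk | with_reducible apply IntF.ite | (with_reducible refine Int.comp ?_ ?_; assumption) | (with_reducible refine Int.comp₂ ?_ ?_ ?_; assumption) | (with_reducible refine Int.comp₃ ?_ ?_ ?_ ?_; assumption) | (with_reducible refine Int.comp₄ ?_ ?_ ?_ ?_ ?_; assumption) | (with_reducible refine IntF.comp ?_ ?_; assumption) | (with_reducible refine IntF.comp₂ ?_ ?_ ?_; assumption) | (with_reducible refine IntF.comp₃ ?_ ?_ ?_ ?_; assumption) | with_reducible apply IntF.pair))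

variable (M) in
/-- The graph of the natural numbers. -/
abbrev E0 : INat M → PP M → INat M → Prop := chk (PP M) (fun m n : INat M => m < n)

theorem good0 : Good (SS M) (E0 M) := good_nat

variable (M) in
/-- The graph of the natural numbers and the reals. -/
abbrev E1 : INat M ⊕ RB M → PP M → INat M ⊕ RB M → Prop := extG (E0 M) QQ

theorem good1 : Good (SS M) (E1 M) := by
  refine good_extG good0 int_QQ fun b => ⟨b.2, ?_⟩
  intro π hπ a r h q hq
  exact ⟨q, le_rfl, a, π • r, ⟨h.2 π hπ a r h.1, h.2⟩, hq, FEq.refl q a⟩

theorem feq_real (π : Gm M) {b b' : RB M} (h : ∀ a s, QQ a (π⁻¹ • s) b ↔ QQ a s b') (p : PP M) :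
    FEq M (tw π (E1 M)) (E1 M) p (Sum.inr b) (Sum.inr b') := by
  have hI : IG M (E1 M) := good1.int
  have h0 : IG M (E0 M) := good0.int
  have key : ∀ q a, FEq M (tw π (E1 M)) (E1 M) q (Sum.inl a) (Sum.inl a) := by
    intro q a
    have h7 := feq_inl (M := M) (E0 M) QQ q a
    have h8 := feq_tw_inl (M := M) π (E0 M) QQ q a
    exact (h8.symm (h0.tw π) (hI.tw π)).trans (hI.tw π) h0 hI h7
  refine (feq_iff (hI.tw π) hI).2 ⟨?_, ?_⟩
  · intro x s hx q _ hq q1 hq1
    obtain ⟨a, rfl, h1⟩ := (extG_inr (E0 M) QQ x _ b).1 hx
    exact ⟨q1, le_rfl, Sum.inl a, s, (extG_inr (E0 M) QQ _ _ b').2 ⟨a, rfl, (h a s).1 h1⟩,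
      hq1.trans hq, key q1 a⟩
  · intro x s hx q _ hq q1 hq1
    obtain ⟨a, rfl, h1⟩ := (extG_inr (E0 M) QQ x _ b').1 hx
    exact ⟨q1, le_rfl, Sum.inl a, s, (extG_inr (E0 M) QQ _ _ b).2 ⟨a, rfl, (h a s).2 h1⟩,
      hq1.trans hq, (key q1 a).symm (hI.tw π) hI⟩

variable {G : Set (PP M)} (hG : IsGen M G)

/-- The numerals of the extension. -/
noncomputable def nN (k : ℕ) : NN (SS M) hG := nd hG good0 (num k)

/-- The reals of the extension. -/
noncomputable def rl (b : RB M) : NN (SS M) hG := nd hG good1 (Sum.inr b)

theorem mem_nN {w : NN (SS M) hG} {k : ℕ} : Plain.Mem w (nN hG k) ↔ ∃ j, j < k ∧ w = nN hG j := by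
  unfold nN
  rw [mem_nd]
  constructor
  · rintro ⟨a, s, -, h, rfl⟩
    obtain ⟨j, rfl⟩ := hS.surj a
    exact ⟨j, num_lt.1 h, rfl⟩
  · rintro ⟨j, hj, rfl⟩
    obtain ⟨s, hs⟩ := hG.ne
    exact ⟨num j, s, hs, num_lt.2 hj, rfl⟩

theorem nN_inj : Function.Injective (nN hG) := by
  have irr : ∀ k, ¬ Plain.Mem (nN hG k) (nN hG k) := by
    intro k
    induction k using Nat.strong_induction_on with
    | _ k ih =>
      intro h
      obtain ⟨j, hj, e⟩ := (mem_nN hG).1 h
      rw [e] at h
      exact ih j hj h
  intro a b h
  rcases lt_trichotomy a b with h1 | h1 | h1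
  · have : Plain.Mem (nN hG a) (nN hG b) := (mem_nN hG).2 ⟨a, h1, rfl⟩
    rw [h] at this
    exact absurd this (irr b)
  · exact h1
  · have : Plain.Mem (nN hG b) (nN hG a) := (mem_nN hG).2 ⟨b, h1, rfl⟩
    rw [h] at this
    exact absurd this (irr b)

theorem mem_rl {b : RB M} {w : NN (SS M) hG} :
    Plain.Mem w (rl hG b) ↔ ∃ k s, s ∈ G ∧ QQ (num k) s b ∧ w = nN hG k := by
  unfold rl
  rw [mem_nd_inr hG good0]
  constructor
  · rintro ⟨a, s, h1, h2, rfl⟩
    obtain ⟨j, rfl⟩ := hS.surj a
    exact ⟨j, s, h1, h2, rfl⟩
  · rintro ⟨k, s, h1, h2, rfl⟩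
    exact ⟨_, s, h1, h2, rfl⟩

theorem nN_mem_rl {b : RB M} {k : ℕ} :
    Plain.Mem (nN hG k) (rl hG b) ↔ ∃ s, s ∈ G ∧ QQ (num k) s b := by
  rw [mem_rl]
  constructor
  · rintro ⟨j, s, h1, h2, h3⟩
    rw [nN_inj hG h3]
    exact ⟨s, h1, h2⟩
  · rintro ⟨s, h1, h2⟩
    exact ⟨k, s, h1, h2, rfl⟩

theorem exists_omega : ∃ w : NN (SS M) hG, ∀ x, Plain.Mem x w ↔ ∃ k, x = nN hG k := by
  obtain ⟨l⟩ := (SS M).nonempty
  refine ⟨rl hG (sep M fun _ => True, l), fun x => ?_⟩
  rw [mem_rl]
  obtain ⟨s, hs⟩ := hG.ne
  exact ⟨fun ⟨k, _, _, _, h⟩ => ⟨k, h⟩, fun ⟨k, h⟩ => ⟨k, s, hs,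
    ⟨(mem_sep (Int.const True)).2 trivial, fun _ _ _ _ _ => (mem_sep (Int.const True)).2 trivial⟩,
    h⟩⟩

/-- Every set of natural numbers of the extension is given by a code. -/
theorem exists_rl {y : NN (SS M) hG} (hy : ∀ z, Plain.Mem z y → ∃ k, z = nN hG k) :
    ∃ b, y = rl hG b := by
  obtain ⟨x, rfl⟩ := exists_mk hG y
  obtain ⟨l, hl⟩ := x.good.sym x.root
  have hI := (good0 (M := M)).int.fmem x.int
  have hT : Int M (fun q : INat M × PP M => FMem M (E0 M) x.E q.2 q.1 x.root) :=
    Int.comp₃ (p := fun p a b => FMem M (E0 M) x.E p a b) hI IntF.snd' IntF.fst' (IntF.const _)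
  have hsym : SymT (sep M (fun q : INat M × PP M => FMem M (E0 M) x.E q.2 q.1 x.root), l) := by
    intro π hπ a p h
    rw [mem_sep hT] at h ⊢
    exact FMem.congr_right good0.int (x.int.tw π) x.int (fmem_tw (SS M) π h) (hl π hπ _)
  refine ⟨(sep M (fun q : INat M × PP M => FMem M (E0 M) x.E q.2 q.1 x.root), l),
    nn_ext hG fun z => ?_⟩
  rw [mem_rl]
  constructor
  · intro hz
    obtain ⟨k, rfl⟩ := hy z hz
    rw [mk_eq_nd, nN, mem_nd_nd] at hz
    obtain ⟨p, hp, h⟩ := hz
    exact ⟨k, p, hp, ⟨(mem_sep hT).2 h, hsym⟩, rfl⟩
  · rintro ⟨k, s, hs, h, rfl⟩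
    rw [mk_eq_nd, nN, mem_nd_nd]
    exact ⟨s, hs, (mem_sep hT).1 h.1⟩

end Pool.Agent.Helper672.ZFA.H154
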