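import Mathlib
import Pool.Agent.H154Z.Clone.Sys

/-! Countable choice for sets of reals in the extension. -/

set_option autoImplicit false
set_option linter.unreachableTactic false
set_option linter.unusedTactic false

namespace Pool.Agent.Helper672.ZFA.H154

open FirstOrder FirstOrder.Language H635 Pool.Agent.Helper672

universe u

variable {M : Type u} [L.Structure M] [hM : IsModel M] [hS : Std M]

/-- The finite set of cells coded by `j` over the support `l`. -/
noncomputable def cells (l : Lm M) (j : ℕ) : IPow M (Cell M) :=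
  sep M fun c => ∃ a, l a = c.1 ∧ Bit j (Nat.pair a c.2)

theorem int_cells0 : Int M (fun q : (Lm M × ℕ) × Cell M =>
    ∃ a, q.1.1 a = q.2.1 ∧ Bit q.1.2 (Nat.pair a q.2.2)) := by (repeat' (first | with_reducible exact IntF.id | with_reducible exact IntF.fst' | with_reducible exact IntF.snd' | with_reducible exact IntF.const _ | with_reducible exact Int.const _ | assumption | with_reducible apply Int.and | with_reducible apply Int.or | with_reducible apply Int.not | with_reducible apply Int.imp | with_reducible apply Int.iff | with_reducible apply Int.eq | with_reducible apply Int.mem | with_reducible apply Int.ltN | with_reducible apply int_ltn | with_reducible apply int_len | with_reducible_and_instances apply Int.le | with_reducible apply Int.all | with_reducible apply Int.ex | with_reducible apply IntF.fst | with_reducible apply IntF.snd | with_reducible apply IntF.app | with_reducible apply IntF.inl | with_reducible apply IntF.inr | with_reducible apply intF_succ | with_reducible apply intF_pair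 | with_reducible apply intF_unpair | with_reducible apply int_bit | with_reducible apply intF_num | with_reducible_and_instances apply IntF.mul | with_reducible_and_instances apply IntF.add | with_reducible_and_instances apply IntF.smul | with_reducible apply IntF.val | with_reducible apply IntF.mk | with_reducible apply IntF.ite | (with_reducible refine Int.comp ?_ ?_; assumption) | (with_reducible refine Int.comp₂ ?_ ?_ ?_; assumption) | (with_reducible refine Int.comp₃ ?_ ?_ ?_ ?_; assumption) | (with_reducible refine Int.comp₄ ?_ ?_ ?_ ?_ ?_; assumption) | (with_reducible refine IntF.comp ?_ ?_; assumption) | (with_reducible refine IntF.comp₂ ?_ ?_ ?_; assumption) | (with_reducible refine IntF.comp₃ ?_ ?_ ?_ ?_; assumption) | with_reducible apply IntF.pair))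

theorem mem_cells {l : Lm M} {j : ℕ} {c : Cell M} :
    c ∈ cells l j ↔ ∃ a, l a = c.1 ∧ Bit j (Nat.pair a c.2) :=
  mem_sep (Int.slice (p := fun (q : Lm M × ℕ) (c : Cell M) =>
    ∃ a, q.1 a = c.1 ∧ Bit q.2 (Nat.pair a c.2)) int_cells0 (l, j))

theorem intF_cells : IntF M (fun q : Lm M × ℕ => cells q.1 q.2) :=
  IntF.sep (p := fun (q : Lm M × ℕ) (c : Cell M) =>
    ∃ a, q.1 a = c.1 ∧ Bit q.2 (Nat.pair a c.2)) int_cells0

theorem cells_finite (l : Lm M) (j : ℕ) : {c | c ∈ cells l j}.Finite := by
  refine ((Set.finite_Iio j).image fun x => (l (Nat.unpair x).1, (Nat.unpair x).2)).subset ?_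
  intro c hc
  obtain ⟨a, h1, a', b, -, h2⟩ := mem_cells.1 hc
  refine ⟨Nat.pair a c.2, ?_, by simp [h1]⟩
  have h3 : Nat.pair a c.2 < 2 ^ Nat.pair a c.2 := Nat.lt_two_pow_self
  rw [Set.mem_Iio, h2]
  nlinarith [Nat.zero_le (a' * 2 ^ Nat.pair a c.2)]

theorem exists_cells (l : Lm M) {A : Set (Cell M)} (hA : A.Finite) (h : ∀ c ∈ A, ∃ a, l a = c.1) :
    ∃ j, ∀ c, c ∈ cells l j ↔ c ∈ A := by
  classical
  choose! idx hidx using h
  obtain ⟨j, hj⟩ := exists_bits (hA.toFinset.image fun c => Nat.pair (idx c) c.2)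
  refine ⟨j, fun c => ?_⟩
  rw [mem_cells]
  constructor
  · rintro ⟨a, h1, h2⟩
    obtain ⟨c', h3, h4⟩ := Finset.mem_image.1 ((hj _).1 h2)
    rw [Set.Finite.mem_toFinset] at h3
    obtain ⟨h5, h6⟩ := Nat.pair_eq_pair.1 h4
    have : c = c' := Prod.ext (by rw [← h1, ← h5, hidx c' h3]) h6.symm
    rwa [this]
  · intro hc
    exact ⟨idx c, hidx c hc, (hj _).2 (Finset.mem_image_of_mem _ (hA.mem_toFinset.2 hc))⟩

/-- The condition coded by `j`, `j'` over the support `l`. -/
noncomputable def cnd (l : Lm M) (j j' : ℕ) : PP M := ⟨(cells l j, cells l j'), cells_finite l j⟩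

theorem intF_cnd : IntF M (fun q : (Lm M × ℕ) × ℕ => cnd q.1.1 q.1.2 q.2) := by
  refine IntF.mk ?_
  exact IntF.pair (IntF.comp₂ (p := cells) intF_cells (IntF.fst IntF.fst') (IntF.snd IntF.fst'))
    (IntF.comp₂ (p := cells) intF_cells (IntF.fst IntF.fst') IntF.snd')

/-- The closure of a support under an internal selection. -/
theorem exists_closure (c : ℕ × PP M → (PP M × RB M) × IFun M ℕ (Cell M)) (hc : IntF M c)
    (hd : ∀ x a, a ∈ (c x).1.1.1.1 → ∃ k, (c x).2 k = a) :
    ∃ (J : Lm M) (C : ℕ → PP M × RB M), IntF M C ∧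
      (∀ m a, a ∈ (C m).1.1.1 → ∃ k, J k = a.1) ∧ (∀ m k, ∃ k', J k' = (C m).2.2 k) ∧
      ∀ (n : ℕ) (r : PP M), ∃ (m : ℕ) (p : PP M), C m = (c (n, p)).1 ∧ r ≤ p ∧
        ∀ a, a ∈ r.1.1 → (∃ k, J k = a.1) → a ∈ p.1.1 := by
  have hcnd := intF_cnd (M := M)
  let ch : Lm M → ℕ → (PP M × RB M) × IFun M ℕ (Cell M) := fun l y =>
    c ((Nat.unpair y).1, cnd l (Nat.unpair (Nat.unpair y).2).1 (Nat.unpair (Nat.unpair y).2).2)
  have hch : IntF M (fun q : Lm M × ℕ => ch q.1 q.2) :=
    IntF.comp hc (IntF.pair (IntF.fst (intF_unpair IntF.snd')) (IntF.comp₃ (p := cnd) hcnd IntF.fst'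
      (IntF.fst (intF_unpair (IntF.snd (intF_unpair IntF.snd'))))
      (IntF.snd (intF_unpair (IntF.snd (intF_unpair IntF.snd'))))))
  let st : Lm M → ℕ → II M := fun l x =>
    if (Nat.unpair x).1 = 0 then l (Nat.unpair x).2
    else if (Nat.unpair x).1 = 1 then
      ((ch l (Nat.unpair (Nat.unpair x).2).1).2 (Nat.unpair (Nat.unpair x).2).2).1
    else (ch l (Nat.unpair (Nat.unpair x).2).1).1.2.2 (Nat.unpair (Nat.unpair x).2).2
  have hy : IntF M (fun q : Lm M × ℕ => ch q.1 (Nat.unpair (Nat.unpair q.2).2).1) :=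
    IntF.comp₂ (p := ch) hch IntF.fst' (IntF.fst (intF_unpair (IntF.snd (intF_unpair IntF.snd'))))
  have hk : IntF M (fun q : Lm M × ℕ => (Nat.unpair (Nat.unpair q.2).2).2) :=
    IntF.snd (intF_unpair (IntF.snd (intF_unpair IntF.snd')))
  have hst : IntF M (fun q : Lm M × ℕ => st q.1 q.2) :=
    IntF.ite (Int.eq (IntF.fst (intF_unpair IntF.snd')) (IntF.const _))
      (IntF.app IntF.fst' (IntF.snd (intF_unpair IntF.snd')))
      (IntF.ite (Int.eq (IntF.fst (intF_unpair IntF.snd')) (IntF.const _))
        (IntF.fst (IntF.app (IntF.snd hy) hk)) (IntF.app (IntF.snd (IntF.snd (IntF.fst hy))) hk))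
  have hstep : IntF M (fun l : Lm M => lam M (st l)) := IntF.lam hst
  have happ : ∀ l x, lam M (st l) x = st l x := fun l x => lam_apply (IntF.slice hst l) x
  let l₀ : Lm M := ⟨fun _ => Classical.arbitrary _, IntF.const _⟩
  let LL : ℕ → Lm M := fun s => Nat.rec l₀ (fun _ l => lam M (st l)) s
  have hLL : IntF M LL := by
    have h := intF_rec (M := M) (γ := ℕ) (f := fun _ s => LL s) (a := fun _ => l₀)
      (s := fun _ _ l => lam M (st l)) (IntF.const _) (IntF.comp (g := fun l : Lm M => lam M (st l)) hstep IntF.snd') (fun _ => rfl)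
      (fun _ _ => rfl)
    exact IntF.comp₂ (p := fun _ s => LL s) h (IntF.const 0) IntF.id
  have hsucc : ∀ s x, LL (s + 1) x = st (LL s) x := fun s x => happ _ x
  have hJ : IntF M (fun x : ℕ => LL (Nat.unpair x).1 (Nat.unpair x).2) :=
    IntF.app (IntF.comp hLL (IntF.fst (intF_unpair IntF.id))) (IntF.snd (intF_unpair IntF.id))
  have hmono : ∀ s s' i, s ≤ s' → (∃ k, LL s k = i) → ∃ k, LL s' k = i := by
    intro s s' i hs h
    induction s', hs using Nat.le_induction with
    | base => exact h
    | succ s' _ ih =>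
      obtain ⟨k, hk⟩ := ih
      exact ⟨Nat.pair 0 k, by rw [hsucc]; simp [st, hk]⟩
  refine ⟨⟨fun x => LL (Nat.unpair x).1 (Nat.unpair x).2, hJ⟩,
    fun m => (ch (LL (Nat.unpair m).1) (Nat.unpair m).2).1,
    IntF.fst (IntF.comp₂ (p := ch) hch (IntF.comp hLL (IntF.fst (intF_unpair IntF.id)))
      (IntF.snd (intF_unpair IntF.id))), ?_, ?_, ?_⟩
  · intro m a ha
    obtain ⟨k, hk⟩ := hd _ a ha
    refine ⟨Nat.pair ((Nat.unpair m).1 + 1) (Nat.pair 1 (Nat.pair (Nat.unpair m).2 k)), ?_⟩
    simp only [Nat.unpair_pair, hsucc, st, one_ne_zero, if_true, if_false]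
    exact congrArg Prod.fst hk
  · intro m k
    refine ⟨Nat.pair ((Nat.unpair m).1 + 1) (Nat.pair 2 (Nat.pair (Nat.unpair m).2 k)), ?_⟩
    simp [hsucc, st]
  · intro n r
    have hA : {a | a ∈ r.1.1 ∧ ∃ s k, LL s k = a.1}.Finite := r.2.subset fun a ha => ha.1
    obtain ⟨s, hs⟩ : ∃ s, ∀ a ∈ {a | a ∈ r.1.1 ∧ ∃ s k, LL s k = a.1}, ∃ k, LL s k = a.1 := by
      have h1 : ∀ a : Cell M, ∃ s, (∃ s k, LL s k = a.1) → ∃ k, LL s k = a.1 := by
        intro a
        by_cases h : ∃ s k, LL s k = a.1
        · obtain ⟨s, h⟩ := h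
          exact ⟨s, fun _ => h⟩
        · exact ⟨0, fun h' => absurd h' h⟩
      choose f hf using h1
      obtain ⟨s, hs⟩ := (hA.image f).bddAbove
      exact ⟨s, fun a ha => hmono _ _ _ (hs ⟨a, ha, rfl⟩) (hf a ha.2)⟩
    obtain ⟨j, hj⟩ := exists_cells (LL s) hA hs
    obtain ⟨j', hj'⟩ := exists_cells (LL s)
      (A := {a | (a ∈ r.1.1 ∧ ∃ s k, LL s k = a.1) ∧ a ∈ r.1.2}) (hA.subset fun a ha => ha.1)
      fun a ha => hs a ha.1
    refine ⟨Nat.pair s (Nat.pair n (Nat.pair j j')), cnd (LL s) j j', by simp [ch], ?_, ?_⟩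
    · intro a ha
      have h1 := (hj a).1 ha
      exact ⟨h1.1, fun h => (hj' a).2 ⟨h1, h⟩, fun h => ((hj' a).1 h).2⟩
    · rintro a ha ⟨k, hk⟩
      exact (hj a).2 ⟨ha, _, _, hk⟩

/-- Amalgamation of conditions. -/
theorem exists_amalg (r q : PP M) (h : ∀ a, a ∈ r.1.1 → a ∈ q.1.1 → (a ∈ r.1.2 ↔ a ∈ q.1.2)) :
    ∃ r', r' ≤ r ∧ r' ≤ q := by
  have h1 : Int M (fun a : Cell M => a ∈ r.1.1 ∨ a ∈ q.1.1) := by (repeat' (first | with_reducible exact IntF.id | with_reducible exact IntF.fst' | with_reducible exact IntF.snd' | with_reducible exact IntF.const _ | with_reducible exact Int.const _ | assumption | with_reducible apply Int.and | with_reducible apply Int.or | with_reducible apply Int.not | with_reducible apply Int.imp | with_reducible apply Int.iff | with_reducible apply Int.eq | with_reducible apply Int.mem | with_reducible apply Int.ltN | with_reducible apply int_ltn | with_reducible apply int_len | with_reducible_and_instances apply Int.le | with_reducible apply Int.all | with_reducible apply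 Int.ex | with_reducible apply IntF.fst | with_reducible apply IntF.snd | with_reducible apply IntF.app | with_reducible apply IntF.inl | with_reducible apply IntF.inr | with_reducible apply intF_succ | with_reducible apply intF_pair | with_reducible apply intF_unpair | with_reducible apply int_bit | with_reducible apply intF_num | with_reducible_and_instances apply IntF.mul | with_reducible_and_instances apply IntF.add | with_reducible_and_instances apply IntF.smul | with_reducible apply IntF.val | with_reducible apply IntF.mk | with_reducible apply IntF.ite | (with_reducible refine Int.comp ?_ ?_; assumption) | (with_reducible refine Int.comp₂ ?_ ?_ ?_; assumption) | (with_reducible refine Int.comp₃ ?_ ?_ ?_ ?_; assumption) | (with_reducible refine Int.comp₄ ?_ ?_ ?_ ?_ ?_; assumption) | (with_reducible refine IntF.comp ?_ ?_; assumption) | (with_reducible refine IntF.comp₂ ?_ ?_ ?_; assumption) | (with_reducible refine IntF.comp₃ ?_ ?_ ?_ ?_; assumption) | with_reducible apply IntF.pair))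
  have h2 : Int M (fun a : Cell M => (a ∈ r.1.1 ∧ a ∈ r.1.2) ∨ (¬ a ∈ r.1.1 ∧ a ∈ q.1.2)) := by
    (repeat' (first | with_reducible exact IntF.id | with_reducible exact IntF.fst' | with_reducible exact IntF.snd' | with_reducible exact IntF.const _ | with_reducible exact Int.const _ | assumption | with_reducible apply Int.and | with_reducible apply Int.or | with_reducible apply Int.not | with_reducible apply Int.imp | with_reducible apply Int.iff | with_reducible apply Int.eq | with_reducible apply Int.mem | with_reducible apply Int.ltN | with_reducible apply int_ltn | with_reducible apply int_len | with_reducible_and_instances apply Int.le | with_reducible apply Int.all | with_reducible apply Int.ex | with_reducible apply IntF.fst | with_reducible apply IntF.snd | with_reducible apply IntF.app | with_reducible apply IntF.inl | with_reducible apply IntF.inr | with_reducible apply intF_succ | with_reducible apply intF_pair | with_reducible apply intF_unpair | with_reducible apply int_bit | with_reducible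 apply intF_num | with_reducible_and_instances apply IntF.mul | with_reducible_and_instances apply IntF.add | with_reducible_and_instances apply IntF.smul | with_reducible apply IntF.val | with_reducible apply IntF.mk | with_reducible apply IntF.ite | (with_reducible refine Int.comp ?_ ?_; assumption) | (with_reducible refine Int.comp₂ ?_ ?_ ?_; assumption) | (with_reducible refine Int.comp₃ ?_ ?_ ?_ ?_; assumption) | (with_reducible refine Int.comp₄ ?_ ?_ ?_ ?_ ?_; assumption) | (with_reducible refine IntF.comp ?_ ?_; assumption) | (with_reducible refine IntF.comp₂ ?_ ?_ ?_; assumption) | (with_reducible refine IntF.comp₃ ?_ ?_ ?_ ?_; assumption) | with_reducible apply IntF.pair))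
  refine ⟨⟨(sep M fun a : Cell M => a ∈ r.1.1 ∨ a ∈ q.1.1,
    sep M fun a : Cell M => (a ∈ r.1.1 ∧ a ∈ r.1.2) ∨ (¬ a ∈ r.1.1 ∧ a ∈ q.1.2)),
    (Set.Finite.union r.2 q.2).subset fun a ha => (mem_sep h1).1 ha⟩, fun a ha => ?_,
    fun a ha => ?_⟩
  · refine ⟨(mem_sep h1).2 (Or.inl ha), (mem_sep h2).trans ?_⟩
    tauto
  · refine ⟨(mem_sep h1).2 (Or.inr ha), (mem_sep h2).trans ?_⟩
    have := fun h' => h a h' ha
    tauto

variable {G : Set (PP M)} (hG : IsGen M G)

theorem cc_plain (hAC : IAC M) (Y : NN (SS M) hG) : ∃ z : NN (SS M) hG,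
    ∀ n, (∃ y, Plain.Mem y Y ∧ (∀ z, Plain.Mem z y → ∃ k, z = nN hG k) ∧ Plain.Mem (nN hG n) y) →
      ∃ m y, Plain.Mem y Y ∧ Plain.Mem (nN hG n) y ∧
        ∀ k, Plain.Mem (nN hG k) y ↔ Plain.Mem (nN hG (Nat.pair m k)) z := by
  obtain ⟨x, rfl⟩ := exists_mk hG Y
  have hI : IG M (E1 M) := good1.int
  have hQ := int_QQ (M := M)
  let φ : ℕ → PP M → RB M → Prop := fun n q b =>
    FMem M (E1 M) x.E q (Sum.inr b) x.root ∧ ∃ r, QQ (num n) r b ∧ q ≤ r
  have hφ : Int M (fun t : (ℕ × PP M) × RB M => φ t.1.1 t.1.2 t.2) :=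
    Int.and (Int.comp₃ (p := fun p a b => FMem M (E1 M) x.E p a b) (hI.fmem x.int)
      (IntF.snd IntF.fst') (IntF.inr IntF.snd') (IntF.const _))
      (Int.ex (Int.and (Int.comp₃ (p := QQ) hQ (intF_num (IntF.fst (IntF.fst IntF.fst'))) IntF.snd'
        (IntF.snd IntF.fst')) (Int.le (IntF.snd (IntF.fst IntF.fst')) IntF.snd')))
  have hmono : ∀ n q q' b, φ n q b → q' ≤ q → φ n q' b := fun n q q' b h hq =>
    ⟨h.1.mono hq, h.2.imp fun r hr => ⟨hr.1, hq.trans hr.2⟩⟩
  obtain ⟨c, hc, hc'⟩ := hAC (ℕ × PP M) ((PP M × RB M) × IFun M ℕ (Cell M))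
    (fun t y => ((∃ q b, q ≤ t.2 ∧ φ t.1 q b) → y.1.1 ≤ t.2 ∧ φ t.1 y.1.1 y.1.2) ∧
      ∀ a, a ∈ y.1.1.1.1 → ∃ k, y.2 k = a)
    (Int.and (Int.imp (Int.ex (Int.ex (Int.and (Int.le (IntF.snd IntF.fst')
        (IntF.snd (IntF.fst (IntF.fst IntF.fst')))) (Int.comp₃ (p := φ) hφ
        (IntF.fst (IntF.fst (IntF.fst IntF.fst'))) (IntF.snd IntF.fst') IntF.snd'))))
      (Int.and (Int.le (IntF.fst (IntF.fst IntF.snd')) (IntF.snd IntF.fst'))
        (Int.comp₃ (p := φ) hφ (IntF.fst IntF.fst') (IntF.fst (IntF.fst IntF.snd'))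
          (IntF.snd (IntF.fst IntF.snd'))))) (by (repeat' (first | with_reducible exact IntF.id | with_reducible exact IntF.fst' | with_reducible exact IntF.snd' | with_reducible exact IntF.const _ | with_reducible exact Int.const _ | assumption | with_reducible apply Int.and | with_reducible apply Int.or | with_reducible apply Int.not | with_reducible apply Int.imp | with_reducible apply Int.iff | with_reducible apply Int.eq | with_reducible apply Int.mem | with_reducible apply Int.ltN | with_reducible apply int_ltn | with_reducible apply int_len | with_reducible_and_instances apply Int.le | with_reducible apply Int.all | with_reducible apply Int.ex | with_reducible apply IntF.fst | with_reducible apply IntF.snd | with_reducible apply IntF.app | with_reducible apply IntF.inl | with_reducible apply IntF.inr | with_reducible apply intF_succ | with_reducible apply intF_pair | with_reducible apply intF_unpair | with_reducible apply int_bit | with_reducible apply intF_num | with_reducible_and_instances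 apply IntF.mul | with_reducible_and_instances apply IntF.add | with_reducible_and_instances apply IntF.smul | with_reducible apply IntF.val | with_reducible apply IntF.mk | with_reducible apply IntF.ite | (with_reducible refine Int.comp ?_ ?_; assumption) | (with_reducible refine Int.comp₂ ?_ ?_ ?_; assumption) | (with_reducible refine Int.comp₃ ?_ ?_ ?_ ?_; assumption) | (with_reducible refine Int.comp₄ ?_ ?_ ?_ ?_ ?_; assumption) | (with_reducible refine IntF.comp ?_ ?_; assumption) | (with_reducible refine IntF.comp₂ ?_ ?_ ?_; assumption) | (with_reducible refine IntF.comp₃ ?_ ?_ ?_ ?_; assumption) | with_reducible apply IntF.pair))))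
    (by
      intro t
      have h1 : ∃ y : PP M × RB M, (∃ q b, q ≤ t.2 ∧ φ t.1 q b) → y.1 ≤ t.2 ∧ φ t.1 y.1 y.2 := by
        by_cases h : ∃ q b, q ≤ t.2 ∧ φ t.1 q b
        · obtain ⟨q, b, h⟩ := h
          exact ⟨(q, b), fun _ => h⟩
        · obtain ⟨l⟩ := (SS M).nonempty
          exact ⟨(t.2, (sep M fun _ => False, l)), fun h' => absurd h' h⟩
      obtain ⟨y, hy⟩ := h1
      obtain ⟨n, h, hh⟩ := exists_enum (M := M) y.1.2
      exact ⟨(y, h), hy, fun a ha => (hh a ha).imp fun k hk => hk.2⟩)
  obtain ⟨J, C, hC, hJ1, hJ2, hJ3⟩ := exists_closure c hc fun t => (hc' t).2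
  have hT : Int M (fun t : INat M × PP M => ∃ m k : ℕ, t.1 = num (Nat.pair m k) ∧
      QQ (num k) t.2 (C m).2) :=
    Int.ex (Int.ex (Int.and (Int.eq (IntF.fst (IntF.fst IntF.fst'))
      (intF_num (intF_pair (IntF.snd IntF.fst') IntF.snd')))
      (Int.comp₃ (p := QQ) hQ (intF_num IntF.snd') (IntF.snd (IntF.fst IntF.fst'))
        (IntF.snd (IntF.comp hC (IntF.snd IntF.fst'))))))
  have hsym : SymT (sep M (fun t : INat M × PP M => ∃ m k : ℕ, t.1 = num (Nat.pair m k) ∧
      QQ (num k) t.2 (C m).2), J) := by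
    intro π hπ a p h
    rw [mem_sep hT] at h ⊢
    obtain ⟨m, k, h1, h2, h3⟩ := h
    refine ⟨m, k, h1, h3 π (fun k' n => ?_) _ _ h2, h3⟩
    obtain ⟨k'', h4⟩ := hJ2 m k'
    rw [← h4]
    exact hπ k'' n
  refine ⟨rl hG (sep M (fun t : INat M × PP M => ∃ m k : ℕ, t.1 = num (Nat.pair m k) ∧
      QQ (num k) t.2 (C m).2), J), fun n ⟨y, h1, h2, h3⟩ => ?_⟩
  obtain ⟨b, rfl⟩ := exists_rl hG h2
  obtain ⟨s, hs, h4⟩ := (nN_mem_rl hG).1 h3
  rw [mk_eq_nd, rl, mem_nd_nd] at h1
  obtain ⟨p, hp, h5⟩ := h1
  obtain ⟨q, hq, h6, h7⟩ := hG.dir p s hp hs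
  have h8 : φ n q b := ⟨h5.mono h6, s, h4, h7⟩
  obtain ⟨r, hr, -, m, h9, h10⟩ := hG.dense_below
    (s := fun r => ∃ m, r ≤ (C m).1 ∧ φ n (C m).1 (C m).2)
    (Int.ex (Int.and (Int.le IntF.fst' (IntF.fst (IntF.comp hC IntF.snd')))
      (Int.comp₃ (p := φ) hφ (IntF.const _) (IntF.fst (IntF.comp hC IntF.snd'))
        (IntF.snd (IntF.comp hC IntF.snd'))))) hq (by
      intro r hr
      obtain ⟨m, p', e, h11, h12⟩ := hJ3 n r
      obtain ⟨h13, h14⟩ := (hc' (n, p')).1 ⟨r, b, h11, hmono n q r b h8 hr⟩
      rw [← e] at h13 h14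
      obtain ⟨r', h15, h16⟩ := exists_amalg r (C m).1 fun a ha ha' => by
        have h17 := h12 a ha (hJ1 m a ha')
        exact (h11 a h17).2.trans (h13 a h17).2.symm
      exact ⟨r', h15, m, h16, h14⟩)
  have hq' : (C m).1 ∈ G := hG.up _ _ hr h9
  obtain ⟨h11, r', h12, h13⟩ := h10
  refine ⟨m, rl hG (C m).2, ?_, (nN_mem_rl hG).2 ⟨r', hG.up _ _ hq' h13, h12⟩, fun k => ?_⟩
  · rw [mk_eq_nd, rl, mem_nd_nd]
    exact ⟨_, hq', h11⟩
  · rw [nN_mem_rl, nN_mem_rl]
    refine exists_congr fun s => and_congr_right fun _ => ⟨fun h => ⟨(mem_sep hT).2 ⟨m, k, rfl, h⟩,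
      hsym⟩, fun h => ?_⟩
    obtain ⟨m', k', h14, h15⟩ := (mem_sep hT).1 h.1
    obtain ⟨rfl, rfl⟩ := Nat.pair_eq_pair.1 (num_inj h14)
    exact h15

end Pool.Agent.Helper672.ZFA.H154
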