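import Mathlib

/-! The combinatorial core: a discontinuous homomorphism to the projections gives a map from
binary sequences to the clone that turns complementation into the exchange of the variables. -/

set_option autoImplicit false

namespace Pool.Agent.H154Z.Clone

universe u

/-- A clone with a homomorphism to the projections: `X n f i` says that `f` is in the clone and
is sent to the `i`-th projection. -/
structure Lab (D : Type u) where
  X : ∀ n, ((Fin n → D) → D) → Fin n → Prop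
  uniq : ∀ n f i j, X n f i → X n f j → i = j
  proj : ∀ n (i : Fin n), X n (fun a => a i) i
  comp : ∀ n m f i (g : Fin n → (Fin m → D) → D) (k : Fin n → Fin m), X n f i →
    (∀ j, X m (g j) (k j)) → X m (fun a => f fun j => g j a) (k i)

namespace Lab

variable {D : Type u} (Y : Lab D)

def L2 (t : D → D → D) (i : Fin 2) : Prop := Y.X 2 (fun a => t (a 0) (a 1)) i

def L3 (g : D → D → D → D) : Prop := Y.X 3 (fun a => g (a 0) (a 1) (a 2)) 0

variable {Y}

theorem f1 {t : D → D → D} {i : Fin 2} {g : D → D → D → D} (ht : Y.L2 t i) (hg : Y.L3 g) :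
    Y.L2 (fun a b => g (t a b) a b) i :=
  Y.comp 3 2 _ 0 ![fun a => t (a 0) (a 1), fun a => a 0, fun a => a 1] ![i, 0, 1] hg (by
    intro j
    fin_cases j
    · exact ht
    · exact Y.proj 2 0
    · exact Y.proj 2 1)

theorem f2 {t : D → D → D} {i : Fin 2} (ht : Y.L2 t i) :
    Y.L2 (fun a b => t b a) (![1, 0] i) :=
  Y.comp 2 2 _ i ![fun a => a 1, fun a => a 0] ![1, 0] ht (by
    intro j
    fin_cases j
    · exact Y.proj 2 1
    · exact Y.proj 2 0)

theorem f3 {g : D → D → D → D} (hg : Y.L3 g) : Y.L3 (fun s a b => g s b a) :=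
  Y.comp 3 3 _ 0 ![fun a => a 0, fun a => a 2, fun a => a 1] ![0, 2, 1] hg (by
    intro j
    fin_cases j
    · exact Y.proj 3 0
    · exact Y.proj 3 2
    · exact Y.proj 3 1)

theorem f4 {g g' : D → D → D → D} (hg : Y.L3 g) (hg' : Y.L3 g') :
    Y.L3 (fun s a b => g' (g s a b) a b) :=
  Y.comp 3 3 _ 0 ![fun a => g (a 0) (a 1) (a 2), fun a => a 1, fun a => a 2] ![0, 1, 2] hg' (by
    intro j
    fin_cases j
    · exact hg
    · exact Y.proj 3 1
    · exact Y.proj 3 2)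

theorem lift23 {r : D → D → D} {j : Fin 2} (hr : Y.L2 r j) :
    Y.X 3 (fun a => r (a 1) (a 2)) (![1, 2] j) :=
  Y.comp 2 3 _ j ![fun a => a 1, fun a => a 2] ![1, 2] hr (by
    intro j
    fin_cases j
    · exact Y.proj 3 1
    · exact Y.proj 3 2)

theorem f5 {f r : D → D → D} {j : Fin 2} (hf : Y.L2 f 0) (hr : Y.L2 r j) :
    Y.L3 (fun s a b => f s (r a b)) :=
  Y.comp 2 3 _ 0 ![fun a => a 0, fun a => r (a 1) (a 2)] ![0, ![1, 2] j] hf (by
    intro j
    fin_cases j
    · exact Y.proj 3 0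
    · exact lift23 hr)

theorem f6 {f r : D → D → D} {j : Fin 2} (hf : Y.L2 f 1) (hr : Y.L2 r j) :
    Y.L3 (fun s a b => f (r a b) s) :=
  Y.comp 2 3 _ 1 ![fun a => r (a 1) (a 2), fun a => a 0] ![![1, 2] j, 0] hf (by
    intro j
    fin_cases j
    · exact lift23 hr
    · exact Y.proj 3 0)

theorem f7 {f t r : D → D → D} {j k : Fin 2} (hf : Y.L2 f 1) (ht : Y.L2 t j) (hr : Y.L2 r k) :
    Y.L2 (fun a b => f (t a b) (r a b)) k :=
  Y.comp 2 2 _ 1 ![fun a => t (a 0) (a 1), fun a => r (a 0) (a 1)] ![j, k] hf (by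
    intro j
    fin_cases j
    · exact ht
    · exact hr)

theorem f8 {α : D → D} (h : Y.X 1 (fun a => α (a 0)) 0) : Y.L3 (fun s _ _ => α s) :=
  Y.comp 1 3 _ 0 (fun _ a => a 0) (fun _ => 0) h (fun _ => Y.proj 3 0)

/-- Reduction of a discontinuity to the binary part. -/
theorem disc_two {n : ℕ} {f : (Fin n → D) → D} {j : Fin n} (hf : Y.X n f j)
    (h : ∀ A : Finset (Fin n → D), ∃ g i, Y.X n g i ∧ i ≠ j ∧ ∀ a ∈ A, g a = f a) :
    ∃ f₂, Y.L2 f₂ 1 ∧ ∀ A : Finset (D × D), ∃ g, Y.L2 g 0 ∧ ∀ a ∈ A, g a.1 a.2 = f₂ a.1 a.2 := by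
  classical
  have key : ∀ g i, Y.X n g i → Y.L2 (fun a b => g fun l => if l = j then b else a)
      (if i = j then 1 else 0) := by
    intro g i hg
    have := Y.comp n 2 g i (fun l a => a (if l = j then 1 else 0)) (fun l => if l = j then 1 else 0)
      hg (fun l => Y.proj 2 _)
    unfold L2
    convert this using 4 with a l
    split_ifs <;> rfl
  refine ⟨fun a b => f fun l => if l = j then b else a, by simpa using key f j hf, fun A => ?_⟩
  obtain ⟨g, i, hg, hi, hA⟩ := h (A.image fun a l => if l = j then a.2 else a.1)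
  refine ⟨fun a b => g fun l => if l = j then b else a, by simpa [hi] using key g i hg,
    fun a ha => hA _ (Finset.mem_image_of_mem _ ha)⟩

variable (Y) in
/-- `u` is reached from `t` on the `n`-th finite set. -/
def Reach (e : ℕ → D) (n : ℕ) (t u : D → D → D) : Prop :=
  ∃ g, Y.L3 g ∧ ∀ i j, i < n → j < n → g (t (e i) (e j)) (e i) (e j) = u (e i) (e j)

theorem Reach.trans {e : ℕ → D} {n : ℕ} {t u v : D → D → D} (h : Y.Reach e n t u)
    (h' : Y.Reach e n u v) : Y.Reach e n t v := by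
  obtain ⟨g, hg, h⟩ := h
  obtain ⟨g', hg', h'⟩ := h'
  exact ⟨_, f4 hg hg', fun i j hi hj => by rw [h i j hi hj, h' i j hi hj]⟩

/-- There is an element that is reached from all elements. -/
theorem exists_sink (e : ℕ → D) {f : D → D → D} (hf : Y.L2 f 1)
    (hd : ∀ A : Finset (D × D), ∃ g, Y.L2 g 0 ∧ ∀ a ∈ A, g a.1 a.2 = f a.1 a.2)
    (ho : ∀ n, 1 ≤ n → {O : Set (Fin n → D) | ∃ a : Fin n → D, O = {b | ∃ α : Equiv.Perm D,
      Y.X 1 (fun x => α (x 0)) 0 ∧ Y.X 1 (fun x => α.symm (x 0)) 0 ∧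
        b = fun i => α (a i)}}.Finite) (n : ℕ) :
    ∃ τ l, Y.L2 τ l ∧ ∀ t k, Y.L2 t k → Y.Reach e n t τ := by
  classical
  have dir : ∀ t k r l, Y.L2 t k → Y.L2 r l → ∃ v m, Y.L2 v m ∧ Y.Reach e n t v ∧
      Y.Reach e n r v := by
    intro t k r l ht hr
    obtain ⟨g, hg, hA⟩ := hd ((Finset.range n ×ˢ Finset.range n).image fun q =>
      (t (e q.1) (e q.2), r (e q.1) (e q.2)))
    refine ⟨_, _, f7 hf ht hr, ⟨_, f5 hg hr, fun i j hi hj => ?_⟩, ⟨_, f6 hf ht, fun _ _ _ _ => rfl⟩⟩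
    exact hA _ (Finset.mem_image_of_mem _ (a := (i, j)) (by simp [hi, hj]))
  let res : (D → D → D) → Fin ((n + 1) * (n + 1)) → D := fun t x =>
    t (e (finProdFinEquiv.symm x).1) (e (finProdFinEquiv.symm x).2)
  let orb : (D → D → D) → Set (Fin ((n + 1) * (n + 1)) → D) := fun t => {b | ∃ α : Equiv.Perm D,
      Y.X 1 (fun x => α (x 0)) 0 ∧ Y.X 1 (fun x => α.symm (x 0)) 0 ∧ b = fun i => α (res t i)}
  have hreach : ∀ t r, orb t = orb r → Y.Reach e n t r := by
    intro t r h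
    have h1 : res r ∈ orb r := ⟨1, Y.proj 1 0, Y.proj 1 0, rfl⟩
    rw [← h] at h1
    obtain ⟨α, hα, -, h2⟩ := h1
    refine ⟨_, f8 hα, fun i j hi hj => ?_⟩
    have := congrFun h2 (finProdFinEquiv (⟨i, by omega⟩, ⟨j, by omega⟩))
    simp only [res, Equiv.symm_apply_apply] at this
    exact this.symm
  have hfin := ho ((n + 1) * (n + 1)) (by nlinarith [Nat.zero_le n])
  have key : ∀ S : Set (Set (Fin ((n + 1) * (n + 1)) → D)), S.Finite →
      ∃ τ l, Y.L2 τ l ∧ ∀ t k, Y.L2 t k → orb t ∈ S → Y.Reach e n t τ := by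
    intro S hS
    induction S, hS using Set.Finite.induction_on with
    | empty => exact ⟨f, 1, hf, fun _ _ _ h => absurd h (Set.notMem_empty _)⟩
    | @insert O S _ _ ih =>
      obtain ⟨τ, l, hτ, h⟩ := ih
      by_cases hO : ∃ r k, Y.L2 r k ∧ orb r = O
      · obtain ⟨r, k, hr, rfl⟩ := hO
        obtain ⟨v, m, hv, h1, h2⟩ := dir τ l r k hτ hr
        refine ⟨v, m, hv, fun t k' ht hmem => ?_⟩
        rcases hmem with hmem | hmem
        · exact (hreach t r hmem).trans h2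
        · exact (h t k' ht hmem).trans h1
      · refine ⟨τ, l, hτ, fun t k' ht hmem => ?_⟩
        rcases hmem with hmem | hmem
        · exact absurd ⟨t, k', ht, hmem⟩ hO
        · exact h t k' ht hmem
  obtain ⟨τ, l, hτ, h⟩ := key _ hfin
  exact ⟨τ, l, hτ, fun t k ht => h t k ht ⟨res t, rfl⟩⟩

end Lab

section construction

variable {D : Type u}

open Classical in
/-- The targets. -/
noncomputable def tgt (τ : ℕ → D → D → D) (w : ℕ → Prop) (n : ℕ) (a b : D) : D :=
  if w n then τ n b a else τ n a b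

open Classical in
/-- The steps. -/
noncomputable def stp (g₀ g₁ : ℕ → D → D → D → D) (w : ℕ → Prop) (n : ℕ) (s a b : D) : D :=
  if w n then (if w (n + 1) then g₀ n s b a else g₁ n s b a)
  else (if w (n + 1) then g₁ n s a b else g₀ n s a b)

/-- The approximations. -/
noncomputable def appr (τ : ℕ → D → D → D) (g₀ g₁ : ℕ → D → D → D → D) (w : ℕ → Prop) (a b : D) :
    ℕ → ℕ → D
  | 0, n => tgt τ w n a b
  | k + 1, n => stp g₀ g₁ w n (appr τ g₀ g₁ w a b k (n + 1)) a b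

/-- The limits. -/
noncomputable def lim (e : ℕ ≃ D) (τ : ℕ → D → D → D) (g₀ g₁ : ℕ → D → D → D → D) (w : ℕ → Prop)
    (n : ℕ) (a b : D) : D := appr τ g₀ g₁ w a b (e.symm a + e.symm b + 1) n

/-- The data of the construction. -/
structure Data (Y : Lab D) (e : ℕ ≃ D) (τ : ℕ → D → D → D) (g₀ g₁ : ℕ → D → D → D → D) :
    Prop where
  hτ : ∀ n, ∃ l, Y.L2 (τ n) l
  h₀ : ∀ n, Y.L3 (g₀ n)
  h₁ : ∀ n, Y.L3 (g₁ n)
  e₀ : ∀ n i j, i < n → j < n → g₀ n (τ (n + 1) (e i) (e j)) (e i) (e j) = τ n (e i) (e j)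
  e₁ : ∀ n i j, i < n → j < n → g₁ n (τ (n + 1) (e j) (e i)) (e i) (e j) = τ n (e i) (e j)

variable {Y : Lab D} {e : ℕ ≃ D} {τ : ℕ → D → D → D} {g₀ g₁ : ℕ → D → D → D → D}

theorem Data.stp_tgt (h : Data Y e τ g₀ g₁) (w : ℕ → Prop) {n : ℕ} {a b : D} (ha : e.symm a < n)
    (hb : e.symm b < n) : stp g₀ g₁ w n (tgt τ w (n + 1) a b) a b = tgt τ w n a b := by
  have a0 := h.e₀ n _ _ ha hb
  have a1 := h.e₁ n _ _ ha hb
  have b0 := h.e₀ n _ _ hb ha
  have b1 := h.e₁ n _ _ hb ha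
  simp only [Equiv.apply_symm_apply] at a0 a1 b0 b1
  unfold stp tgt
  split_ifs <;> assumption

theorem Data.appr_succ (h : Data Y e τ g₀ g₁) (w : ℕ → Prop) {a b : D} (k : ℕ) :
    ∀ n, e.symm a < n + k → e.symm b < n + k →
      appr τ g₀ g₁ w a b (k + 1) n = appr τ g₀ g₁ w a b k n := by
  induction k with
  | zero => intro n ha hb; exact h.stp_tgt w ha hb
  | succ k ih =>
    intro n ha hb
    have := ih (n + 1) (by omega) (by omega)
    rw [appr, this, appr]

theorem Data.appr_le (h : Data Y e τ g₀ g₁) (w : ℕ → Prop) {a b : D} {k k' n : ℕ} (hk : k ≤ k')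
    (ha : e.symm a < n + k) (hb : e.symm b < n + k) :
    appr τ g₀ g₁ w a b k' n = appr τ g₀ g₁ w a b k n := by
  induction k', hk using Nat.le_induction with
  | base => rfl
  | succ k' hk ih => rw [h.appr_succ w k' n (by omega) (by omega), ih]

theorem Data.appr_eq_lim (h : Data Y e τ g₀ g₁) (w : ℕ → Prop) {a b : D} {k n : ℕ}
    (ha : e.symm a < n + k) (hb : e.symm b < n + k) :
    appr τ g₀ g₁ w a b k n = lim e τ g₀ g₁ w n a b := by
  unfold lim
  rcases le_total k (e.symm a + e.symm b + 1) with hk | hk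
  · exact (h.appr_le w hk ha hb).symm
  · exact h.appr_le w hk (by omega) (by omega)

theorem Data.lim_succ (h : Data Y e τ g₀ g₁) (w : ℕ → Prop) (n : ℕ) (a b : D) :
    lim e τ g₀ g₁ w n a b = stp g₀ g₁ w n (lim e τ g₀ g₁ w (n + 1) a b) a b := by
  rw [← h.appr_eq_lim w (k := e.symm a + e.symm b + 1 + 1) (by omega) (by omega), appr]
  rfl

theorem Data.l3_stp (h : Data Y e τ g₀ g₁) (w : ℕ → Prop) (n : ℕ) : Y.L3 (stp g₀ g₁ w n) := by
  have e1 : stp g₀ g₁ w n = fun s a b => stp g₀ g₁ w n s a b := rfl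
  rw [e1]
  unfold stp
  by_cases h1 : w n <;> by_cases h2 : w (n + 1) <;> simp only [h1, h2, if_true, if_false]
  · exact Lab.f3 (h.h₀ n)
  · exact Lab.f3 (h.h₁ n)
  · exact h.h₁ n
  · exact h.h₀ n

theorem Data.l2_appr (h : Data Y e τ g₀ g₁) (w : ℕ → Prop) (k : ℕ) :
    ∀ n, ∃ l, Y.L2 (fun a b => appr τ g₀ g₁ w a b k n) l := by
  induction k with
  | zero =>
    intro n
    obtain ⟨l, hl⟩ := h.hτ n
    simp only [appr, tgt]
    by_cases h1 : w n <;> simp only [h1, if_true, if_false]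
    · exact ⟨_, Lab.f2 hl⟩
    · exact ⟨_, hl⟩
  | succ k ih =>
    intro n
    obtain ⟨l, hl⟩ := ih (n + 1)
    exact ⟨l, Lab.f1 hl (h.l3_stp w n)⟩

theorem appr_flip {w w' : ℕ → Prop} {m : ℕ} (hw : ∀ k, m ≤ k → (w k ↔ ¬ w' k)) (a b : D) (k : ℕ) :
    ∀ n, m ≤ n → appr τ g₀ g₁ w' a b k n = appr τ g₀ g₁ w b a k n := by
  induction k with
  | zero =>
    intro n hn
    have := hw n hn
    simp only [appr, tgt]
    by_cases h1 : w' n <;> simp [h1, this]
  | succ k ih =>
    intro n hn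
    have h1 := hw n hn
    have h2 := hw (n + 1) (by omega)
    simp only [appr, stp, ih (n + 1) (by omega)]
    by_cases a1 : w' n <;> by_cases a2 : w' (n + 1) <;> simp [a1, a2, h1, h2]

/-- Complementation of the tail exchanges the two projections. -/
theorem Data.flip (h : Data Y e τ g₀ g₁) {w w' : ℕ → Prop} {m : ℕ}
    (hw : ∀ k, m ≤ k → (w k ↔ ¬ w' k)) (hc : ∃ l, Y.L2 (lim e τ g₀ g₁ w m) l) :
    ¬ (Y.L2 (lim e τ g₀ g₁ w 0) 0 ↔ Y.L2 (lim e τ g₀ g₁ w' 0) 0) := by
  obtain ⟨l, hl⟩ := hc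
  have down : ∀ (v : ℕ → Prop) (i : Fin 2) (n : ℕ), Y.L2 (lim e τ g₀ g₁ v n) i →
      Y.L2 (lim e τ g₀ g₁ v 0) i := by
    intro v i n
    induction n with
    | zero => exact id
    | succ n ih =>
      intro h1
      apply ih
      have := Lab.f1 h1 (h.l3_stp v n)
      convert this using 1
      funext a b
      exact h.lim_succ v n a b
  have hl' : Y.L2 (lim e τ g₀ g₁ w' m) (![1, 0] l) := by
    have := Lab.f2 hl
    convert this using 1
    funext a b
    unfold lim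
    rw [appr_flip hw a b _ m le_rfl, Nat.add_comm (e.symm a)]
  have h1 := down w l m hl
  have h2 := down w' _ m hl'
  intro hiff
  fin_cases l
  · have := Y.uniq _ _ _ _ (hiff.1 h1) h2
    simp at this
  · have := Y.uniq _ _ _ _ (hiff.2 h2) h1
    simp at this

end construction

end Pool.Agent.H154Z.Clone
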