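import Mathlib
import Pool.Agent.H154Z.Clone.Std
import Pool.Agent.H154Z.Clone.Pure

/-! The main argument inside a model with countable choice for reals and without selectors. -/

set_option autoImplicit false
set_option linter.unreachableTactic false
set_option linter.unusedTactic false

namespace Pool.Agent.Helper672.ZFA.H154

open FirstOrder FirstOrder.Language Pool.Agent.H154Z.Clone

universe u u₁ u₂ u₃

variable {N : Type u} [L.Structure N] [hM : IsModel N] [hS : Std N]

variable (N) in
/-- No internal set of reals separates almost complementary reals. -/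
def NSel : Prop := ∀ E : IPow N ℕ → Prop, Int N E → ∃ w w' : IPow N ℕ,
  (∃ m, ∀ k, m ≤ k → (k ∈ w ↔ ¬ k ∈ w')) ∧ (E w ↔ E w')

variable (N) in
/-- Countable choice for the internal type `β`. -/
def CCh (β : Type u₁) [ITy N β] : Prop := ∀ r : ℕ → β → Prop,
  Int N (fun q : ℕ × β => r q.1 q.2) → (∀ n, ∃ y, r n y) →
    ∃ f : ℕ → β, IntF N f ∧ ∀ n, r n (f n)

theorem cch_of_inj {α : Type u₁} {β : Type u₂} [ITy N α] [ITy N β] (h : CCh N α) (c : β → α)
    (hc : IntF N c) (hi : Function.Injective c) : CCh N β := by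
  intro r hr hex
  obtain ⟨f, hf, h1⟩ := h (fun n y => ∃ b, c b = y ∧ r n b) (by (repeat' (first | with_reducible exact IntF.id | with_reducible exact IntF.fst' | with_reducible exact IntF.snd' | with_reducible exact IntF.const _ | with_reducible exact Int.const _ | assumption | with_reducible apply Int.and | with_reducible apply Int.or | with_reducible apply Int.not | with_reducible apply Int.imp | with_reducible apply Int.iff | with_reducible apply Int.eq | with_reducible apply Int.mem | with_reducible apply Int.ltN | with_reducible apply int_ltn | with_reducible apply int_len | with_reducible_and_instances apply Int.le | with_reducible apply Int.all | with_reducible apply Int.ex | with_reducible apply IntF.fst | with_reducible apply IntF.snd | with_reducible apply IntF.app | with_reducible apply IntF.inl | with_reducible apply IntF.inr | with_reducible apply intF_succ | with_reducible apply intF_pair | with_reducible apply intF_unpair | with_reducible apply int_bit | with_reducible apply intF_num | with_reducible_and_instances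 apply IntF.mul | with_reducible_and_instances apply IntF.add | with_reducible_and_instances apply IntF.smul | with_reducible apply IntF.val | with_reducible apply IntF.mk | with_reducible apply IntF.ite | (with_reducible refine Int.comp ?_ ?_; assumption) | (with_reducible refine Int.comp₂ ?_ ?_ ?_; assumption) | (with_reducible refine Int.comp₃ ?_ ?_ ?_ ?_; assumption) | (with_reducible refine Int.comp₄ ?_ ?_ ?_ ?_ ?_; assumption) | (with_reducible refine IntF.comp ?_ ?_; assumption) | (with_reducible refine IntF.comp₂ ?_ ?_ ?_; assumption) | (with_reducible refine IntF.comp₃ ?_ ?_ ?_ ?_; assumption) | with_reducible apply IntF.pair))) fun n => by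
    obtain ⟨b, hb⟩ := hex n
    exact ⟨c b, b, rfl, hb⟩
  choose g hg hg' using h1
  refine ⟨g, IntF.of_rel (r := fun n b => c b = f n) (by (repeat' (first | with_reducible exact IntF.id | with_reducible exact IntF.fst' | with_reducible exact IntF.snd' | with_reducible exact IntF.const _ | with_reducible exact Int.const _ | assumption | with_reducible apply Int.and | with_reducible apply Int.or | with_reducible apply Int.not | with_reducible apply Int.imp | with_reducible apply Int.iff | with_reducible apply Int.eq | with_reducible apply Int.mem | with_reducible apply Int.ltN | with_reducible apply int_ltn | with_reducible apply int_len | with_reducible_and_instances apply Int.le | with_reducible apply Int.all | with_reducible apply Int.ex | with_reducible apply IntF.fst | with_reducible apply IntF.snd | with_reducible apply IntF.app | with_reducible apply IntF.inl | with_reducible apply IntF.inr | with_reducible apply intF_succ | with_reducible apply intF_pair | with_reducible apply intF_unpair | with_reducible apply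 int_bit | with_reducible apply intF_num | with_reducible_and_instances apply IntF.mul | with_reducible_and_instances apply IntF.add | with_reducible_and_instances apply IntF.smul | with_reducible apply IntF.val | with_reducible apply IntF.mk | with_reducible apply IntF.ite | (with_reducible refine Int.comp ?_ ?_; assumption) | (with_reducible refine Int.comp₂ ?_ ?_ ?_; assumption) | (with_reducible refine Int.comp₃ ?_ ?_ ?_ ?_; assumption) | (with_reducible refine Int.comp₄ ?_ ?_ ?_ ?_ ?_; assumption) | (with_reducible refine IntF.comp ?_ ?_; assumption) | (with_reducible refine IntF.comp₂ ?_ ?_ ?_; assumption) | (with_reducible refine IntF.comp₃ ?_ ?_ ?_ ?_; assumption) | with_reducible apply IntF.pair))) fun n b => ?_, hg'⟩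
  rw [← hg n, hi.eq_iff, eq_comm]

theorem cch_fun {A : Type u₁} {D : Type u₂} [ITy N A] [ITy N D] (h : CCh N (IPow N ℕ))
    (s : ℕ → A) (hs : IntF N s) (hs' : Function.Surjective s) (e : ℕ → D) (he : IntF N e)
    (he' : Function.Surjective e) : CCh N (IFun N A D) := by
  have h0 : Int N (fun q : IFun N A D × ℕ =>
      q.1 (s (Nat.unpair q.2).1) = e (Nat.unpair q.2).2) := by (repeat' (first | with_reducible exact IntF.id | with_reducible exact IntF.fst' | with_reducible exact IntF.snd' | with_reducible exact IntF.const _ | with_reducible exact Int.const _ | assumption | with_reducible apply Int.and | with_reducible apply Int.or | with_reducible apply Int.not | with_reducible apply Int.imp | with_reducible apply Int.iff | with_reducible apply Int.eq | with_reducible apply Int.mem | with_reducible apply Int.ltN | with_reducible apply int_ltn | with_reducible apply int_len | with_reducible_and_instances apply Int.le | with_reducible apply Int.all | with_reducible apply Int.ex | with_reducible apply IntF.fst | with_reducible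 apply IntF.snd | with_reducible apply IntF.app | with_reducible apply IntF.inl | with_reducible apply IntF.inr | with_reducible apply intF_succ | with_reducible apply intF_pair | with_reducible apply intF_unpair | with_reducible apply int_bit | with_reducible apply intF_num | with_reducible_and_instances apply IntF.mul | with_reducible_and_instances apply IntF.add | with_reducible_and_instances apply IntF.smul | with_reducible apply IntF.val | with_reducible apply IntF.mk | with_reducible apply IntF.ite | (with_reducible refine Int.comp ?_ ?_; assumption) | (with_reducible refine Int.comp₂ ?_ ?_ ?_; assumption) | (with_reducible refine Int.comp₃ ?_ ?_ ?_ ?_; assumption) | (with_reducible refine Int.comp₄ ?_ ?_ ?_ ?_ ?_; assumption) | (with_reducible refine IntF.comp ?_ ?_; assumption) | (with_reducible refine IntF.comp₂ ?_ ?_ ?_; assumption) | (with_reducible refine IntF.comp₃ ?_ ?_ ?_ ?_; assumption) | with_reducible apply IntF.pair))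
  refine cch_of_inj h (fun f => sep N fun k : ℕ => f (s (Nat.unpair k).1) = e (Nat.unpair k).2)
    (IntF.sep (p := fun (f : IFun N A D) (k : ℕ) =>
      f (s (Nat.unpair k).1) = e (Nat.unpair k).2) h0) fun f g hfg => IFun.ext' fun a => ?_
  have h1 : ∀ (f : IFun N A D) (k : ℕ), k ∈ sep N (fun k : ℕ =>
      f (s (Nat.unpair k).1) = e (Nat.unpair k).2) ↔
      f (s (Nat.unpair k).1) = e (Nat.unpair k).2 := fun f k =>
    mem_sep (Int.slice (p := fun (f : IFun N A D) (k : ℕ) =>
      f (s (Nat.unpair k).1) = e (Nat.unpair k).2) h0 f)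
  obtain ⟨i, rfl⟩ := hs' a
  obtain ⟨j, hj⟩ := he' (f (s i))
  have h2 := h1 f (Nat.pair i j)
  dsimp only at hfg
  rw [hfg, h1 g] at h2
  simp only [Nat.unpair_pair] at h2
  rw [h2.2 hj.symm, hj]

variable {D : Type u₁} [ITy N D]

/-- A binary operation from an internal function. -/
def U2 (f : IFun N (D × D) D) : D → D → D := fun a b => f (a, b)

/-- A ternary operation from an internal function. -/
def U3 (f : IFun N ((D × D) × D) D) : D → D → D → D := fun a b c => f ((a, b), c)

theorem intF_lim (e : ℕ ≃ D) (he : IntF N e) {τ : ℕ → D → D → D} {g₀ g₁ : ℕ → D → D → D → D}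
    (hτ : IntF N (fun q : (ℕ × D) × D => τ q.1.1 q.1.2 q.2))
    (h₀ : IntF N (fun q : (ℕ × D) × (D × D) => g₀ q.1.1 q.1.2 q.2.1 q.2.2))
    (h₁ : IntF N (fun q : (ℕ × D) × (D × D) => g₁ q.1.1 q.1.2 q.2.1 q.2.2)) :
    IntF N (fun q : (IPow N ℕ × ℕ) × (D × D) =>
      lim e τ g₀ g₁ (fun k => k ∈ q.1.1) q.1.2 q.2.1 q.2.2) := by
  have he' : IntF N e.symm :=
    IntF.of_rel (r := fun d n => e n = d) (Int.eq (IntF.comp he IntF.snd') IntF.fst') fun d n => by
      rw [Equiv.symm_apply_eq, eq_comm]
  have ht : IntF N (fun q : (IPow N ℕ × (D × D)) × ℕ =>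
      tgt τ (fun k => k ∈ q.1.1) q.2 q.1.2.1 q.1.2.2) := by
    unfold tgt
    exact IntF.ite (Int.mem IntF.snd' (IntF.fst IntF.fst'))
      (IntF.comp₃ (p := τ) hτ IntF.snd' (IntF.snd (IntF.snd IntF.fst'))
        (IntF.fst (IntF.snd IntF.fst')))
      (IntF.comp₃ (p := τ) hτ IntF.snd' (IntF.fst (IntF.snd IntF.fst'))
        (IntF.snd (IntF.snd IntF.fst')))
  have aux : ∀ g : ℕ → D → D → D → D,
      IntF N (fun q : (ℕ × D) × (D × D) => g q.1.1 q.1.2 q.2.1 q.2.2) →
      IntF N (fun q : ((IPow N ℕ × (D × D)) × IFun N ℕ D) × ℕ =>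
        g q.2 (q.1.2 (q.2 + 1)) q.1.1.2.1 q.1.1.2.2) ∧
      IntF N (fun q : ((IPow N ℕ × (D × D)) × IFun N ℕ D) × ℕ =>
        g q.2 (q.1.2 (q.2 + 1)) q.1.1.2.2 q.1.1.2.1) := fun g hg =>
    ⟨IntF.comp₃ (p := fun n s (x : D × D) => g n s x.1 x.2) hg IntF.snd'
      (IntF.app (IntF.snd IntF.fst') (intF_succ IntF.snd')) (IntF.snd (IntF.fst IntF.fst')),
    IntF.comp₃ (p := fun n s (x : D × D) => g n s x.1 x.2) hg IntF.snd'
      (IntF.app (IntF.snd IntF.fst') (intF_succ IntF.snd'))
      (IntF.pair (IntF.snd (IntF.snd (IntF.fst IntF.fst'))) (IntF.fst (IntF.snd (IntF.fst IntF.fst'))))⟩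
  have hst : IntF N (fun q : ((IPow N ℕ × (D × D)) × IFun N ℕ D) × ℕ =>
      stp g₀ g₁ (fun k => k ∈ q.1.1.1) q.2 (q.1.2 (q.2 + 1)) q.1.1.2.1 q.1.1.2.2) := by
    unfold stp
    exact IntF.ite (Int.mem IntF.snd' (IntF.fst (IntF.fst IntF.fst')))
      (IntF.ite (Int.mem (intF_succ IntF.snd') (IntF.fst (IntF.fst IntF.fst')))
        (aux g₀ h₀).2 (aux g₁ h₁).2)
      (IntF.ite (Int.mem (intF_succ IntF.snd') (IntF.fst (IntF.fst IntF.fst')))
        (aux g₁ h₁).1 (aux g₀ h₀).1)
  let a : IPow N ℕ × (D × D) → IFun N ℕ D := fun c =>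
    lam N fun n => tgt τ (fun k => k ∈ c.1) n c.2.1 c.2.2
  let s : IPow N ℕ × (D × D) → IFun N ℕ D → IFun N ℕ D := fun c h =>
    lam N fun n => stp g₀ g₁ (fun k => k ∈ c.1) n (h (n + 1)) c.2.1 c.2.2
  have ha : IntF N a := IntF.lam (f := fun (c : IPow N ℕ × (D × D)) n =>
    tgt τ (fun k => k ∈ c.1) n c.2.1 c.2.2) ht
  have hs : IntF N (fun q : (IPow N ℕ × (D × D)) × IFun N ℕ D => s q.1 q.2) :=
    IntF.lam (f := fun (q : (IPow N ℕ × (D × D)) × IFun N ℕ D) n =>
      stp g₀ g₁ (fun k => k ∈ q.1.1) n (q.2 (n + 1)) q.1.2.1 q.1.2.2) hst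
  let F : IPow N ℕ × (D × D) → ℕ → IFun N ℕ D := fun c k => Nat.rec (a c) (fun _ h => s c h) k
  have hF : IntF N (fun q : (IPow N ℕ × (D × D)) × ℕ => F q.1 q.2) :=
    intF_rec (f := F) (a := a) (s := fun c _ h => s c h) ha
      (IntF.comp₂ (p := s) hs (IntF.fst IntF.fst') IntF.snd') (fun _ => rfl) (fun _ _ => rfl)
  have key : ∀ c k n, F c k n = appr τ g₀ g₁ (fun k => k ∈ c.1) c.2.1 c.2.2 k n := by
    intro c k
    induction k with
    | zero =>
      intro n
      exact lam_apply (IntF.slice (f := fun (c : IPow N ℕ × (D × D)) n =>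
        tgt τ (fun k => k ∈ c.1) n c.2.1 c.2.2) ht c) n
    | succ k ih =>
      intro n
      rw [appr, ← ih]
      exact lam_apply (IntF.slice (f := fun (q : (IPow N ℕ × (D × D)) × IFun N ℕ D) n =>
        stp g₀ g₁ (fun k => k ∈ q.1.1) n (q.2 (n + 1)) q.1.2.1 q.1.2.2) hst (c, F c k)) n
  have h2 : IntF N (fun q : (IPow N ℕ × ℕ) × (D × D) =>
      F (q.1.1, q.2) (e.symm q.2.1 + e.symm q.2.2 + 1) q.1.2) :=
    IntF.app (IntF.comp₂ (p := F) hF (IntF.pair (IntF.fst IntF.fst') IntF.snd')
      (intF_succ (IntF.add (IntF.comp he' (IntF.fst IntF.snd'))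
        (IntF.comp he' (IntF.snd IntF.snd'))))) (IntF.snd IntF.fst')
  simp only [key] at h2
  exact h2

theorem core (hNS : NSel N) (hCC : CCh N (IPow N ℕ)) (e : ℕ ≃ D) (he : IntF N e) (Y : Lab D)
    (g2 : ∀ t i, Y.L2 t i → IntF N (fun q : D × D => t q.1 q.2))
    (g3 : ∀ g, Y.L3 g → IntF N (fun q : (D × D) × D => g q.1.1 q.1.2 q.2))
    (i2 : ∀ i, Int N (fun f : IFun N (D × D) D => Y.L2 (U2 f) i))
    (i3 : Int N (fun f : IFun N ((D × D) × D) D => Y.L3 (U3 f)))
    (hcl : ∀ t : D → D → D, IntF N (fun q : D × D => t q.1 q.2) →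
      (∀ n, ∃ g l, Y.L2 g l ∧ ∀ a b, e.symm a < n → e.symm b < n → g a b = t a b) →
      ∃ l, Y.L2 t l)
    (hsink : ∀ n, ∃ τ l, Y.L2 τ l ∧ ∀ t k, Y.L2 t k → Y.Reach e n t τ) : False := by
  have s2 : Function.Surjective fun k : ℕ => (e (Nat.unpair k).1, e (Nat.unpair k).2) :=
    fun q => ⟨Nat.pair (e.symm q.1) (e.symm q.2), by simp⟩
  have hs2 : IntF N fun k : ℕ => (e (Nat.unpair k).1, e (Nat.unpair k).2) :=
    IntF.pair (IntF.comp he (IntF.fst (intF_unpair IntF.id)))
      (IntF.comp he (IntF.snd (intF_unpair IntF.id)))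
  have s3 : Function.Surjective fun k : ℕ =>
      ((e (Nat.unpair (Nat.unpair k).1).1, e (Nat.unpair (Nat.unpair k).1).2),
        e (Nat.unpair k).2) :=
    fun q => ⟨Nat.pair (Nat.pair (e.symm q.1.1) (e.symm q.1.2)) (e.symm q.2), by simp⟩
  have hs3 : IntF N fun k : ℕ =>
      ((e (Nat.unpair (Nat.unpair k).1).1, e (Nat.unpair (Nat.unpair k).1).2),
        e (Nat.unpair k).2) :=
    IntF.pair (IntF.comp (g := fun k : ℕ => (e (Nat.unpair k).1, e (Nat.unpair k).2)) hs2
      (IntF.fst (intF_unpair IntF.id))) (IntF.comp he (IntF.snd (intF_unpair IntF.id)))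
  have c2 := cch_fun hCC _ hs2 s2 e he e.surjective
  have c3 := cch_fun hCC _ hs3 s3 e he e.surjective
  let R : ℕ → IFun N (D × D) D → IFun N (D × D) D → IFun N ((D × D) × D) D → Prop :=
    fun n t v g => Y.L3 (U3 g) ∧
      ∀ i j, i < n → j < n → g ((t (e i, e j), e i), e j) = v (e i, e j)
  have hR : Int N (fun q : ((ℕ × IFun N (D × D) D) × IFun N (D × D) D) ×
      IFun N ((D × D) × D) D => R q.1.1.1 q.1.1.2 q.1.2 q.2) := by
    refine Int.and (Int.comp (p := fun f => Y.L3 (U3 f)) i3 IntF.snd') ?_
    have he1 : IntF N (fun n => e n) := he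
    (repeat' (first | with_reducible exact IntF.id | with_reducible exact IntF.fst' | with_reducible exact IntF.snd' | with_reducible exact IntF.const _ | with_reducible exact Int.const _ | assumption | with_reducible apply Int.and | with_reducible apply Int.or | with_reducible apply Int.not | with_reducible apply Int.imp | with_reducible apply Int.iff | with_reducible apply Int.eq | with_reducible apply Int.mem | with_reducible apply Int.ltN | with_reducible apply int_ltn | with_reducible apply int_len | with_reducible_and_instances apply Int.le | with_reducible apply Int.all | with_reducible apply Int.ex | with_reducible apply IntF.fst | with_reducible apply IntF.snd | with_reducible apply IntF.app | with_reducible apply IntF.inl | with_reducible apply IntF.inr | with_reducible apply intF_succ | with_reducible apply intF_pair | with_reducible apply intF_unpair | with_reducible apply int_bit | with_reducible apply intF_num | with_reducible_and_instances apply IntF.mul | with_reducible_and_instances apply IntF.add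 | with_reducible_and_instances apply IntF.smul | with_reducible apply IntF.val | with_reducible apply IntF.mk | with_reducible apply IntF.ite | (with_reducible refine Int.comp ?_ ?_; assumption) | (with_reducible refine Int.comp₂ ?_ ?_ ?_; assumption) | (with_reducible refine Int.comp₃ ?_ ?_ ?_ ?_; assumption) | (with_reducible refine Int.comp₄ ?_ ?_ ?_ ?_ ?_; assumption) | (with_reducible refine IntF.comp ?_ ?_; assumption) | (with_reducible refine IntF.comp₂ ?_ ?_ ?_; assumption) | (with_reducible refine IntF.comp₃ ?_ ?_ ?_ ?_; assumption) | with_reducible apply IntF.pair))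
  have hreach : ∀ n t v, Y.Reach e n (U2 t) (U2 v) → ∃ g, R n t v g := by
    rintro n t v ⟨g, hg, h⟩
    exact ⟨⟨_, g3 g hg⟩, hg, h⟩
  have hC : Int N (fun f : IFun N (D × D) D => ∃ l, Y.L2 (U2 f) l) :=
    ((i2 0).or (i2 1)).congr fun f => Fin.exists_fin_two.symm
  obtain ⟨τ, hτ, hτ'⟩ := c2 (fun n v => (∃ l, Y.L2 (U2 v) l) ∧
      ∀ t, (∃ l, Y.L2 (U2 t) l) → ∃ g, R n t v g)
    (Int.and (Int.comp (p := fun f => ∃ l, Y.L2 (U2 f) l) hC IntF.snd')
      (Int.all (Int.imp (Int.comp (p := fun f => ∃ l, Y.L2 (U2 f) l) hC IntF.snd')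
        (Int.ex (Int.comp₄ (p := R) hR (IntF.fst (IntF.fst IntF.fst')) (IntF.snd IntF.fst')
          (IntF.snd (IntF.fst IntF.fst')) IntF.snd'))))) (by
      intro n
      obtain ⟨v, l, hv, h⟩ := hsink n
      exact ⟨⟨_, g2 v l hv⟩, ⟨l, hv⟩, fun t ⟨k, ht⟩ => hreach n t _ (h _ k ht)⟩)
  obtain ⟨g₀, hg₀, hg₀'⟩ := c3 (fun n g => R n (τ (n + 1)) (τ n) g)
    (Int.comp₄ (p := R) hR IntF.fst' (IntF.comp hτ (intF_succ IntF.fst'))
      (IntF.comp hτ IntF.fst') IntF.snd') fun n => (hτ' n).2 _ (hτ' (n + 1)).1
  have hsw : IntF N (fun q : ℕ × (D × D) => τ q.1 (q.2.2, q.2.1)) :=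
    IntF.app (IntF.comp hτ IntF.fst') (IntF.pair (IntF.snd IntF.snd') (IntF.fst IntF.snd'))
  let σ : ℕ → IFun N (D × D) D := fun n => lam N fun x : D × D => τ n (x.2, x.1)
  have hσ : IntF N σ := IntF.lam (f := fun n (x : D × D) => τ n (x.2, x.1)) hsw
  have hσ' : ∀ n x, σ n x = τ n (x.2, x.1) := fun n x =>
    lam_apply (IntF.slice (f := fun n (x : D × D) => τ n (x.2, x.1)) hsw n) x
  obtain ⟨g₁, hg₁, hg₁'⟩ := c3 (fun n g => R n (σ (n + 1)) (τ n) g)
    (Int.comp₄ (p := R) hR IntF.fst' (IntF.comp hσ (intF_succ IntF.fst'))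
      (IntF.comp hτ IntF.fst') IntF.snd') fun n => (hτ' n).2 _ (by
        obtain ⟨l, hl⟩ := (hτ' (n + 1)).1
        refine ⟨![1, 0] l, ?_⟩
        convert Lab.f2 hl using 1
        funext a b
        exact hσ' _ _)
  have hD : Data Y e (fun n => U2 (τ n)) (fun n => U3 (g₀ n)) (fun n => U3 (g₁ n)) :=
    ⟨fun n => (hτ' n).1, fun n => (hg₀' n).1, fun n => (hg₁' n).1, fun n => (hg₀' n).2,
      fun n i j hi hj => by
        have := (hg₁' n).2 i j hi hj
        rw [hσ'] at this
        exact this⟩
  have hlim := intF_lim e he (τ := fun n => U2 (τ n)) (g₀ := fun n => U3 (g₀ n))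
    (g₁ := fun n => U3 (g₁ n))
    (IntF.app (IntF.comp hτ (IntF.fst IntF.fst')) (IntF.pair (IntF.snd IntF.fst') IntF.snd'))
    (IntF.app (IntF.comp hg₀ (IntF.fst IntF.fst'))
      (IntF.pair (IntF.pair (IntF.snd IntF.fst') (IntF.fst IntF.snd')) (IntF.snd IntF.snd')))
    (IntF.app (IntF.comp hg₁ (IntF.fst IntF.fst'))
      (IntF.pair (IntF.pair (IntF.snd IntF.fst') (IntF.fst IntF.snd')) (IntF.snd IntF.snd')))
  let T : IPow N ℕ × ℕ → D × D → D := fun c x =>
    lim e (fun n => U2 (τ n)) (fun n => U3 (g₀ n)) (fun n => U3 (g₁ n)) (fun k => k ∈ c.1) c.2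
      x.1 x.2
  have hT : ∀ c, IntF N (T c) := fun c => IntF.slice (f := T) hlim c
  have hE : Int N (fun w : IPow N ℕ => Y.L2 (lim e (fun n => U2 (τ n)) (fun n => U3 (g₀ n))
      (fun n => U3 (g₁ n)) (fun k => k ∈ w) 0) 0) := by
    have h1 := Int.comp (p := fun f => Y.L2 (U2 f) 0) (i2 0)
      (IntF.comp (g := fun c => lam N (T c)) (IntF.lam (f := T) hlim)
        (IntF.pair IntF.id (IntF.const 0)))
    refine h1.congr fun w => ?_
    have h2 : U2 (lam N (T (w, 0))) = lim e (fun n => U2 (τ n)) (fun n => U3 (g₀ n))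
        (fun n => U3 (g₁ n)) (fun k => k ∈ w) 0 := by
      funext a b
      exact lam_apply (hT _) _
    rw [h2]
  obtain ⟨w, w', ⟨m, hm⟩, h⟩ := hNS _ hE
  refine hD.flip hm (hcl _ (hT (w, m)) fun n => ?_) h
  obtain ⟨l, hl⟩ := hD.l2_appr (fun k => k ∈ w) n m
  exact ⟨_, l, hl, fun a b ha hb => hD.appr_eq_lim _ (by omega) (by omega)⟩

end Pool.Agent.Helper672.ZFA.H154
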