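import Mathlib
import Pool.Agent.H635R2.Statement

/-!
# Clones in a model of set theory

`LSet` is the language of set theory, `Mem x y` is membership in a structure `N` for it, `El a` is
the type of the elements of `a` in the sense of `N`, and `IsOrdPair p x y` says that `p` is the
Kuratowski pair of `x` and `y` in `N` (all from `Pool.Agent.Helper672.SIK.Plain`).
-/

set_option autoImplicit false

namespace Pool.Agent.H154Z.Clone

open Pool.Agent.Helper672.Plain (LSet Mem IsOrdPair El)

universe u

variable {N : Type u} [LSet.Structure N]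

/-- `x` is the von Neumann numeral of the natural number `i` in `N`. -/
def IsNum : ℕ → N → Prop
  | 0, x => ∀ z, ¬ Mem z x
  | i + 1, x => ∃ y, IsNum i y ∧ ∀ z, Mem z x ↔ Mem z y ∨ z = y

variable (N) in
/-- `N` is an `ω`-model: the standard numerals form a set of `N` (this set is then the least
inductive set `ω` of `N`, and finite in `N` means finite). -/
def OmegaModel : Prop := ∃ w : N, ∀ x, Mem x w ↔ ∃ i, IsNum i x

/-- `t` is the tuple `(a 0, (a 1, ... (a (n - 1), ∅)))` in `N`. -/
def IsTuple : (n : ℕ) → (Fin n → N) → N → Prop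
  | 0, _, t => ∀ z, ¬ Mem z t
  | n + 1, a, t => ∃ s, IsTuple n (fun i => a i.succ) s ∧ IsOrdPair t (a 0) s

/-- The `n`-ary operations on the elements of `Ω`. -/
abbrev Op (Ω : N) (n : ℕ) : Type u := (Fin n → El Ω) → El Ω

/-- `γ` is the graph of the operation `f`: the set of the pairs `(a, f a)`. -/
def IsGraphOf {Ω : N} {n : ℕ} (γ : N) (f : Op Ω n) : Prop :=
  ∀ p, Mem p γ ↔ ∃ (a : Fin n → El Ω) (t : N), IsTuple n (fun i => (a i).1) t ∧
    IsOrdPair p t (f a).1

/-- `Ω` is countably infinite in `N`: a bijection from `ω` onto `Ω` is an element of `N`. -/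
def CountablyInfinite (Ω : N) : Prop :=
  ∃ (e : ℕ ≃ El Ω) (γ : N), ∀ p, Mem p γ ↔ ∃ i k, IsNum i k ∧ IsOrdPair p k (e i).1

/-- `C` is a closed function clone on `Ω` in the model `N`; `C n` is its `n`-ary part. -/
structure IsClosedClone (Ω : N) (C : ∀ n, Set (Op Ω n)) : Prop where
  /-- the arities are at least one -/
  arity : C 0 = ∅
  /-- the operations of the clone are elements of the model -/
  graphs : ∀ n, ∀ f ∈ C n, ∃ γ, IsGraphOf γ f
  /-- the clone is an element of the model -/
  inModel : ∃ c : N, ∀ γ, Mem γ c ↔ ∃ n, ∃ f ∈ C n, IsGraphOf γ f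
  proj : ∀ n (i : Fin n), (fun a => a i) ∈ C n
  comp : ∀ n m, ∀ f ∈ C n, ∀ g : Fin n → Op Ω m, (∀ i, g i ∈ C m) →
    (fun a => f fun i => g i a) ∈ C m
  /-- every operation of the model that is a pointwise limit of members of the clone is in it -/
  closed : ∀ n (f : Op Ω n), 1 ≤ n → (∃ γ, IsGraphOf γ f) →
    (∀ A : Finset (Fin n → El Ω), ∃ g ∈ C n, ∀ a ∈ A, g a = f a) → f ∈ C n

/-- The permutation group of the invertible unary members of `C` has finitely many orbits on
`Ω ^ n` for every `n ≥ 1`. -/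
def Oligomorphic {Ω : N} (C : ∀ n, Set (Op Ω n)) : Prop :=
  ∀ n, 1 ≤ n → {O : Set (Fin n → El Ω) | ∃ a : Fin n → El Ω, O = {b | ∃ α : Equiv.Perm (El Ω),
    (fun x => α (x 0)) ∈ C 1 ∧ (fun x => α.symm (x 0)) ∈ C 1 ∧ b = fun i => α (a i)}}.Finite

/-- `ξ` is a clone homomorphism in the model `N` from `C` to the clone of projections on a
two-element set; the `i`-th `n`-ary projection of that clone is identified with `i : Fin n`. -/
structure IsProjHom {Ω : N} (C : ∀ n, Set (Op Ω n)) (ξ : ∀ n, C n → Fin n) : Prop where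
  /-- the map is an element of the model -/
  inModel : ∃ x : N, ∀ p, Mem p x ↔
    ∃ (n : ℕ) (f : C n) (γ k : N), IsGraphOf γ f.1 ∧ IsNum (ξ n f) k ∧ IsOrdPair p γ k
  proj : ∀ n (i : Fin n) (h : (fun a => a i) ∈ C n), ξ n ⟨fun a => a i, h⟩ = i
  comp : ∀ n m (f : C n) (g : Fin n → C m) (h : (fun a => f.1 fun i => (g i).1 a) ∈ C m),
    ξ m ⟨fun a => f.1 fun i => (g i).1 a, h⟩ = ξ m (g (ξ n f))

/-- `ξ` is continuous for the topology of pointwise convergence on `C` and the discrete topology
on the projections: its value at `f` is shared by all members of `C` that agree with `f` on a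
suitable finite set. -/
def ContinuousHom {Ω : N} (C : ∀ n, Set (Op Ω n)) (ξ : ∀ n, C n → Fin n) : Prop :=
  ∀ n (f : C n), ∃ A : Finset (Fin n → El Ω), ∀ g : C n, (∀ a ∈ A, g.1 a = f.1 a) → ξ n g = ξ n f

end Pool.Agent.H154Z.Clone
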