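import Mathlib
import Pool.Agent.H154Z.Clone.Sys

/-! No set of reals of the extension separates almost complementary reals. -/

set_option autoImplicit false

namespace Pool.Agent.Helper672.ZFA.H154

open FirstOrder FirstOrder.Language H635 Pool.Agent.Helper672

universe u

variable {M : Type u} [L.Structure M] [hM : IsModel M] [hS : Std M]

/-- A support misses some column. -/
theorem exists_col (l : Lm M) : ∃ i : II M, ∀ k, l k ≠ i := by
  have hl : IntF M (fun a => l a) := l.int
  have h : Int M (fun a : INat M => ∃ k : ℕ, num k = a ∧ ¬ a ∈ l k) := by (repeat' (first | with_reducible exact IntF.id | with_reducible exact IntF.fst' | with_reducible exact IntF.snd' | with_reducible exact IntF.const _ | with_reducible exact Int.const _ | assumption | with_reducible apply Int.and | with_reducible apply Int.or | with_reducible apply Int.not | with_reducible apply Int.imp | with_reducible apply Int.iff | with_reducible apply Int.eq | with_reducible apply Int.mem | with_reducible apply Int.ltN | with_reducible apply int_ltn | with_reducible apply int_len | with_reducible_and_instances apply Int.le | with_reducible apply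 Int.all | with_reducible apply Int.ex | with_reducible apply IntF.fst | with_reducible apply IntF.snd | with_reducible apply IntF.app | with_reducible apply IntF.inl | with_reducible apply IntF.inr | with_reducible apply intF_succ | with_reducible apply intF_pair | with_reducible apply intF_unpair | with_reducible apply int_bit | with_reducible apply intF_num | with_reducible_and_instances apply IntF.mul | with_reducible_and_instances apply IntF.add | with_reducible_and_instances apply IntF.smul | with_reducible apply IntF.val | with_reducible apply IntF.mk | with_reducible apply IntF.ite | (with_reducible refine Int.comp ?_ ?_; assumption) | (with_reducible refine Int.comp₂ ?_ ?_ ?_; assumption) | (with_reducible refine Int.comp₃ ?_ ?_ ?_ ?_; assumption) | (with_reducible refine Int.comp₄ ?_ ?_ ?_ ?_ ?_; assumption) | (with_reducible refine IntF.comp ?_ ?_; assumption) | (with_reducible refine IntF.comp₂ ?_ ?_ ?_; assumption) | (with_reducible refine IntF.comp₃ ?_ ?_ ?_ ?_; assumption) | with_reducible apply IntF.pair))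
  refine ⟨sep M fun a : INat M => ∃ k : ℕ, num k = a ∧ ¬ a ∈ l k, fun k hk => ?_⟩
  have h1 : (num k : INat M) ∈ l k ↔ ∃ j : ℕ, (num j : INat M) = num k ∧ ¬ num k ∈ l j := by
    rw [hk]
    exact mem_sep h
  by_cases h2 : (num k : INat M) ∈ l k
  · obtain ⟨j, h3, h4⟩ := h1.1 h2
    rw [num_inj h3] at h4
    exact h4 h2
  · exact h2 (h1.2 ⟨k, rfl, h2⟩)

/-- The name of the set of the places where the generic column `i` agrees with `φ`. -/
noncomputable def colN (i : II M) (φ : ℕ → Prop) : RB M :=
  (sep M fun q : INat M × PP M => ∃ k : ℕ, num k = q.1 ∧ (i, k) ∈ q.2.1.1 ∧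
    ((i, k) ∈ q.2.1.2 ↔ φ k), ⟨fun _ => i, IntF.const _⟩)

theorem mem_colN {i : II M} {φ : ℕ → Prop} (hφ : Int M φ) {a : INat M} {p : PP M} :
    (a, p) ∈ (colN i φ).1 ↔ ∃ k : ℕ, num k = a ∧ (i, k) ∈ p.1.1 ∧ ((i, k) ∈ p.1.2 ↔ φ k) :=
  mem_sep (by (repeat' (first | with_reducible exact IntF.id | with_reducible exact IntF.fst' | with_reducible exact IntF.snd' | with_reducible exact IntF.const _ | with_reducible exact Int.const _ | assumption | with_reducible apply Int.and | with_reducible apply Int.or | with_reducible apply Int.not | with_reducible apply Int.imp | with_reducible apply Int.iff | with_reducible apply Int.eq | with_reducible apply Int.mem | with_reducible apply Int.ltN | with_reducible apply int_ltn | with_reducible apply int_len | with_reducible_and_instances apply Int.le | with_reducible apply Int.all | with_reducible apply Int.ex | with_reducible apply IntF.fst | with_reducible apply IntF.snd | with_reducible apply IntF.app | with_reducible apply IntF.inl | with_reducible apply IntF.inr | with_reducible apply intF_succ | with_reducible apply intF_pair | with_reducible apply intF_unpair | with_reducible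 apply int_bit | with_reducible apply intF_num | with_reducible_and_instances apply IntF.mul | with_reducible_and_instances apply IntF.add | with_reducible_and_instances apply IntF.smul | with_reducible apply IntF.val | with_reducible apply IntF.mk | with_reducible apply IntF.ite | (with_reducible refine Int.comp ?_ ?_; assumption) | (with_reducible refine Int.comp₂ ?_ ?_ ?_; assumption) | (with_reducible refine Int.comp₃ ?_ ?_ ?_ ?_; assumption) | (with_reducible refine Int.comp₄ ?_ ?_ ?_ ?_ ?_; assumption) | (with_reducible refine IntF.comp ?_ ?_; assumption) | (with_reducible refine IntF.comp₂ ?_ ?_ ?_; assumption) | (with_reducible refine IntF.comp₃ ?_ ?_ ?_ ?_; assumption) | with_reducible apply IntF.pair)))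

theorem symT_colN {i : II M} {φ : ℕ → Prop} (hφ : Int M φ) : SymT (colN i φ) := by
  intro π hπ a p h
  rw [mem_colN hφ] at h ⊢
  obtain ⟨k, h1, h2, h3⟩ := h
  have h4 : ¬ (i, k) ∈ π.s := hπ 0 k
  refine ⟨k, h1, h2, ?_⟩
  rw [smul_val]
  tauto

variable {G : Set (PP M)} (hG : IsGen M G)

include hG in
theorem exists_dom (c : Cell M) : ∃ p, p ∈ G ∧ c ∈ p.1.1 := by
  refine hG.dense (fun p => c ∈ p.1.1) (by (repeat' (first | with_reducible exact IntF.id | with_reducible exact IntF.fst' | with_reducible exact IntF.snd' | with_reducible exact IntF.const _ | with_reducible exact Int.const _ | assumption | with_reducible apply Int.and | with_reducible apply Int.or | with_reducible apply Int.not | with_reducible apply Int.imp | with_reducible apply Int.iff | with_reducible apply Int.eq | with_reducible apply Int.mem | with_reducible apply Int.ltN | with_reducible apply int_ltn | with_reducible apply int_len | with_reducible_and_instances apply Int.le | with_reducible apply Int.all | with_reducible apply Int.ex | with_reducible apply IntF.fst | with_reducible apply IntF.snd | with_reducible apply IntF.app | with_reducible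 apply IntF.inl | with_reducible apply IntF.inr | with_reducible apply intF_succ | with_reducible apply intF_pair | with_reducible apply intF_unpair | with_reducible apply int_bit | with_reducible apply intF_num | with_reducible_and_instances apply IntF.mul | with_reducible_and_instances apply IntF.add | with_reducible_and_instances apply IntF.smul | with_reducible apply IntF.val | with_reducible apply IntF.mk | with_reducible apply IntF.ite | (with_reducible refine Int.comp ?_ ?_; assumption) | (with_reducible refine Int.comp₂ ?_ ?_ ?_; assumption) | (with_reducible refine Int.comp₃ ?_ ?_ ?_ ?_; assumption) | (with_reducible refine Int.comp₄ ?_ ?_ ?_ ?_ ?_; assumption) | (with_reducible refine IntF.comp ?_ ?_; assumption) | (with_reducible refine IntF.comp₂ ?_ ?_ ?_; assumption) | (with_reducible refine IntF.comp₃ ?_ ?_ ?_ ?_; assumption) | with_reducible apply IntF.pair))) fun p => ?_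
  have h : Int M (fun x : Cell M => x ∈ p.1.1 ∨ x = c) := by (repeat' (first | with_reducible exact IntF.id | with_reducible exact IntF.fst' | with_reducible exact IntF.snd' | with_reducible exact IntF.const _ | with_reducible exact Int.const _ | assumption | with_reducible apply Int.and | with_reducible apply Int.or | with_reducible apply Int.not | with_reducible apply Int.imp | with_reducible apply Int.iff | with_reducible apply Int.eq | with_reducible apply Int.mem | with_reducible apply Int.ltN | with_reducible apply int_ltn | with_reducible apply int_len | with_reducible_and_instances apply Int.le | with_reducible apply Int.all | with_reducible apply Int.ex | with_reducible apply IntF.fst | with_reducible apply IntF.snd | with_reducible apply IntF.app | with_reducible apply IntF.inl | with_reducible apply IntF.inr | with_reducible apply intF_succ | with_reducible apply intF_pair | with_reducible apply intF_unpair | with_reducible apply int_bit | with_reducible apply intF_num | with_reducible_and_instances apply IntF.mul | with_reducible_and_instances apply IntF.add | with_reducible_and_instances apply IntF.smul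 | with_reducible apply IntF.val | with_reducible apply IntF.mk | with_reducible apply IntF.ite | (with_reducible refine Int.comp ?_ ?_; assumption) | (with_reducible refine Int.comp₂ ?_ ?_ ?_; assumption) | (with_reducible refine Int.comp₃ ?_ ?_ ?_ ?_; assumption) | (with_reducible refine Int.comp₄ ?_ ?_ ?_ ?_ ?_; assumption) | (with_reducible refine IntF.comp ?_ ?_; assumption) | (with_reducible refine IntF.comp₂ ?_ ?_ ?_; assumption) | (with_reducible refine IntF.comp₃ ?_ ?_ ?_ ?_; assumption) | with_reducible apply IntF.pair))
  refine ⟨⟨(sep M fun x : Cell M => x ∈ p.1.1 ∨ x = c, p.1.2), ?_⟩, fun x hx =>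
    ⟨(mem_sep h).2 (Or.inl hx), Iff.rfl⟩, (mem_sep h).2 (Or.inr rfl)⟩
  refine (Set.Finite.insert c p.2).subset fun x hx => ?_
  rcases (mem_sep h).1 hx with h1 | h1
  · exact Or.inr h1
  · exact Or.inl h1

/-- The generic column. -/
def gen (G : Set (PP M)) (i : II M) (k : ℕ) : Prop := ∃ p, p ∈ G ∧ (i, k) ∈ p.1.1 ∧ (i, k) ∈ p.1.2

theorem nN_mem_col {i : II M} {φ : ℕ → Prop} (hφ : Int M φ) {k : ℕ} :
    Plain.Mem (nN hG k) (rl hG (colN i φ)) ↔ (gen G i k ↔ φ k) := by
  have key : ∀ p, p ∈ G → (i, k) ∈ p.1.1 → (gen G i k ↔ (i, k) ∈ p.1.2) := by
    intro p hp h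
    refine ⟨fun ⟨q, hq, h1, h2⟩ => ?_, fun h1 => ⟨p, hp, h, h1⟩⟩
    obtain ⟨r, -, h3, h4⟩ := hG.dir p q hp hq
    exact (h3 _ h).2.1 ((h4 _ h1).2.2 h2)
  rw [nN_mem_rl]
  constructor
  · rintro ⟨s, hs, h, -⟩
    obtain ⟨j, h1, h2, h3⟩ := (mem_colN hφ).1 h
    obtain rfl := num_inj h1
    rw [key s hs h2]
    exact h3
  · intro h
    obtain ⟨p, hp, h1⟩ := exists_dom hG (i, k)
    exact ⟨p, hp, (mem_colN hφ).2 ⟨k, rfl, h1, (key p hp h1).symm.trans h⟩, symT_colN hφ⟩

theorem flip_mem (x : Nm (SS M)) {l : Lm M} (hl : Sy (SS M) x.E l x.root) {i : II M}
    (hi : ∀ k, l k ≠ i) {φ : ℕ → Prop} (hφ : Int M φ)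
    (h : Plain.Mem (rl hG (colN i φ)) (NN.mk hG x)) :
    ∃ m, Plain.Mem (rl hG (colN i fun k => (φ k ↔ k < m))) (NN.mk hG x) := by
  rw [mk_eq_nd, rl, mem_nd_nd] at h
  obtain ⟨p, hp, h⟩ := h
  obtain ⟨m, hm⟩ := (Set.Finite.image Prod.snd p.2).bddAbove
  have hm' : ∀ c, c ∈ p.1.1 → c.2 < m + 1 := fun c hc => Nat.lt_succ_of_le (hm ⟨c, hc, rfl⟩)
  have h1 : Int M (fun c : Cell M => c.1 = i ∧ m + 1 ≤ c.2) := by (repeat' (first | with_reducible exact IntF.id | with_reducible exact IntF.fst' | with_reducible exact IntF.snd' | with_reducible exact IntF.const _ | with_reducible exact Int.const _ | assumption | with_reducible apply Int.and | with_reducible apply Int.or | with_reducible apply Int.not | with_reducible apply Int.imp | with_reducible apply Int.iff | with_reducible apply Int.eq | with_reducible apply Int.mem | with_reducible apply Int.ltN | with_reducible apply int_ltn | with_reducible apply int_len | with_reducible_and_instances apply Int.le | with_reducible apply Int.all | with_reducible apply Int.ex | with_reducible apply IntF.fst | with_reducible apply IntF.snd | with_reducible apply IntF.app | with_reducible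 apply IntF.inl | with_reducible apply IntF.inr | with_reducible apply intF_succ | with_reducible apply intF_pair | with_reducible apply intF_unpair | with_reducible apply int_bit | with_reducible apply intF_num | with_reducible_and_instances apply IntF.mul | with_reducible_and_instances apply IntF.add | with_reducible_and_instances apply IntF.smul | with_reducible apply IntF.val | with_reducible apply IntF.mk | with_reducible apply IntF.ite | (with_reducible refine Int.comp ?_ ?_; assumption) | (with_reducible refine Int.comp₂ ?_ ?_ ?_; assumption) | (with_reducible refine Int.comp₃ ?_ ?_ ?_ ?_; assumption) | (with_reducible refine Int.comp₄ ?_ ?_ ?_ ?_ ?_; assumption) | (with_reducible refine IntF.comp ?_ ?_; assumption) | (with_reducible refine IntF.comp₂ ?_ ?_ ?_; assumption) | (with_reducible refine IntF.comp₃ ?_ ?_ ?_ ?_; assumption) | with_reducible apply IntF.pair))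
  let π : Gm M := sep M fun c : Cell M => c.1 = i ∧ m + 1 ≤ c.2
  have hπ : ∀ c, c ∈ π.s ↔ c.1 = i ∧ m + 1 ≤ c.2 := fun c => mem_sep h1
  have hU : (SS M).U l π := fun k n hc => hi k ((hπ _).1 hc).1
  have hφ' : Int M (fun k => (φ k ↔ k < m + 1)) := by (repeat' (first | with_reducible exact IntF.id | with_reducible exact IntF.fst' | with_reducible exact IntF.snd' | with_reducible exact IntF.const _ | with_reducible exact Int.const _ | assumption | with_reducible apply Int.and | with_reducible apply Int.or | with_reducible apply Int.not | with_reducible apply Int.imp | with_reducible apply Int.iff | with_reducible apply Int.eq | with_reducible apply Int.mem | with_reducible apply Int.ltN | with_reducible apply int_ltn | with_reducible apply int_len | with_reducible_and_instances apply Int.le | with_reducible apply Int.all | with_reducible apply Int.ex | with_reducible apply IntF.fst | with_reducible apply IntF.snd | with_reducible apply IntF.app | with_reducible apply IntF.inl | with_reducible apply IntF.inr | with_reducible apply intF_succ | with_reducible apply intF_pair | with_reducible apply intF_unpair | with_reducible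 apply int_bit | with_reducible apply intF_num | with_reducible_and_instances apply IntF.mul | with_reducible_and_instances apply IntF.add | with_reducible_and_instances apply IntF.smul | with_reducible apply IntF.val | with_reducible apply IntF.mk | with_reducible apply IntF.ite | (with_reducible refine Int.comp ?_ ?_; assumption) | (with_reducible refine Int.comp₂ ?_ ?_ ?_; assumption) | (with_reducible refine Int.comp₃ ?_ ?_ ?_ ?_; assumption) | (with_reducible refine Int.comp₄ ?_ ?_ ?_ ?_ ?_; assumption) | (with_reducible refine IntF.comp ?_ ?_; assumption) | (with_reducible refine IntF.comp₂ ?_ ?_ ?_; assumption) | (with_reducible refine IntF.comp₃ ?_ ?_ ?_ ?_; assumption) | with_reducible apply IntF.pair))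
  have hle : p ≤ π • p := by
    intro c hc
    have h2 := hm' c hc
    have h3 : ¬ c ∈ π.s := fun h => absurd ((hπ c).1 h).2 (by omega)
    refine ⟨hc, ?_⟩
    rw [smul_val]
    tauto
  have h2 := (fmem_tw (SS M) π h).mono hle
  have hI : IG M (E1 M) := good1.int
  have h3 := FMem.congr_right (hI.tw π) (x.int.tw π) x.int h2 (hl π hU p)
  have h4 := feq_real π (b := colN i φ) (b' := colN i fun k => (φ k ↔ k < m + 1)) (by
    intro a s
    refine and_congr ?_ (iff_of_true (symT_colN hφ) (symT_colN hφ'))
    rw [mem_colN hφ, mem_colN hφ']
    refine exists_congr fun k => and_congr_right fun _ => and_congr_right fun _ => ?_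
    rw [smul_val, inv_eq', hπ]
    by_cases hk : k < m + 1
    · have : ¬ m + 1 ≤ k := by omega
      simp only [hk, this]
      tauto
    · have : m + 1 ≤ k := by omega
      simp only [hk, this]
      tauto) p
  refine ⟨m + 1, ?_⟩
  rw [mk_eq_nd, rl, mem_nd_nd]
  exact ⟨p, hp, FMem.congr_left hI (hI.tw π) x.int (h4.symm (hI.tw π) hI) h3⟩

theorem ns_plain (E : NN (SS M) hG) : ∃ w w' : NN (SS M) hG,
    (∀ z, Plain.Mem z w → ∃ k, z = nN hG k) ∧ (∀ z, Plain.Mem z w' → ∃ k, z = nN hG k) ∧
    (∃ m, ∀ k, m ≤ k → (Plain.Mem (nN hG k) w ↔ ¬ Plain.Mem (nN hG k) w')) ∧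
    (Plain.Mem w E ↔ Plain.Mem w' E) := by
  obtain ⟨x, rfl⟩ := exists_mk hG E
  obtain ⟨l, hl⟩ := x.good.sym x.root
  obtain ⟨i, hi⟩ := exists_col l
  have hsub : ∀ b z, Plain.Mem z (rl hG b) → ∃ k, z = nN hG k := fun b z hz => by
    obtain ⟨k, _, _, _, h⟩ := (mem_rl hG).1 hz
    exact ⟨k, h⟩
  have key : ∀ P : Prop, Plain.Mem (rl hG (colN i fun _ => P)) (NN.mk hG x) →
      ∃ w w' : NN (SS M) hG,
      (∀ z, Plain.Mem z w → ∃ k, z = nN hG k) ∧ (∀ z, Plain.Mem z w' → ∃ k, z = nN hG k) ∧
      (∃ m, ∀ k, m ≤ k → (Plain.Mem (nN hG k) w ↔ ¬ Plain.Mem (nN hG k) w')) ∧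
      (Plain.Mem w (NN.mk hG x) ↔ Plain.Mem w' (NN.mk hG x)) := by
    intro P h
    obtain ⟨m, hm⟩ := flip_mem hG x hl hi (Int.const P) h
    refine ⟨_, _, hsub _, hsub _, ⟨m, fun k hk => ?_⟩, iff_of_true h hm⟩
    have hφ' : Int M (fun k : ℕ => (P ↔ k < m)) := by (repeat' (first | with_reducible exact IntF.id | with_reducible exact IntF.fst' | with_reducible exact IntF.snd' | with_reducible exact IntF.const _ | with_reducible exact Int.const _ | assumption | with_reducible apply Int.and | with_reducible apply Int.or | with_reducible apply Int.not | with_reducible apply Int.imp | with_reducible apply Int.iff | with_reducible apply Int.eq | with_reducible apply Int.mem | with_reducible apply Int.ltN | with_reducible apply int_ltn | with_reducible apply int_len | with_reducible_and_instances apply Int.le | with_reducible apply Int.all | with_reducible apply Int.ex | with_reducible apply IntF.fst | with_reducible apply IntF.snd | with_reducible apply IntF.app | with_reducible apply IntF.inl | with_reducible apply IntF.inr | with_reducible apply intF_succ | with_reducible apply intF_pair | with_reducible apply intF_unpair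 | with_reducible apply int_bit | with_reducible apply intF_num | with_reducible_and_instances apply IntF.mul | with_reducible_and_instances apply IntF.add | with_reducible_and_instances apply IntF.smul | with_reducible apply IntF.val | with_reducible apply IntF.mk | with_reducible apply IntF.ite | (with_reducible refine Int.comp ?_ ?_; assumption) | (with_reducible refine Int.comp₂ ?_ ?_ ?_; assumption) | (with_reducible refine Int.comp₃ ?_ ?_ ?_ ?_; assumption) | (with_reducible refine Int.comp₄ ?_ ?_ ?_ ?_ ?_; assumption) | (with_reducible refine IntF.comp ?_ ?_; assumption) | (with_reducible refine IntF.comp₂ ?_ ?_ ?_; assumption) | (with_reducible refine IntF.comp₃ ?_ ?_ ?_ ?_; assumption) | with_reducible apply IntF.pair))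
    rw [nN_mem_col hG (Int.const P), nN_mem_col hG hφ']
    have : ¬ k < m := by omega
    tauto
  by_cases h1 : Plain.Mem (rl hG (colN i fun _ => True)) (NN.mk hG x)
  · exact key _ h1
  by_cases h2 : Plain.Mem (rl hG (colN i fun _ => False)) (NN.mk hG x)
  · exact key _ h2
  refine ⟨_, _, hsub _, hsub _, ⟨0, fun k _ => ?_⟩, iff_of_false h1 h2⟩
  rw [nN_mem_col hG (Int.const True), nN_mem_col hG (Int.const False)]
  tauto

end Pool.Agent.Helper672.ZFA.H154
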