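import Mathlib
import Pool.Agent.H635R2.Zf
import Pool.Agent.H154Z.Clone.Core
import Pool.Agent.H154Z.Clone.Defs

/-! Tuples, graphs and the translation of the clone notions to internal types. -/

set_option autoImplicit false
set_option linter.unreachableTactic false
set_option linter.unusedTactic false

namespace Pool.Agent.Helper672.ZFA.H154

open FirstOrder FirstOrder.Language H635 Pool.Agent.Helper672 Pool.Agent.H154Z.Clone
open Pool.Agent.Helper672.Plain (LSet)
open Pool.Agent.H635Amen (ZF)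

universe u u₁ u₂ u₃

section tup

variable {N : Type u} [L.Structure N] [hM : IsModel N] {D : Type u₁} [ITy N D]

theorem consInj (n : ℕ) : Function.Injective
    fun a : Fin (n + 1) → D => (a 0, fun i : Fin n => a i.succ) := by
  intro a b h
  funext i
  refine Fin.cases (congrArg Prod.fst h) (fun j => congrFun (congrArg Prod.snd h) j) i

theorem consSurj (n : ℕ) (q : D × (Fin n → D)) :
    ∃ a : Fin (n + 1) → D, (a 0, fun i : Fin n => a i.succ) = q :=
  ⟨Fin.cons q.1 q.2, by simp⟩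

variable (N D) in
/-- Tuples form an internal type. -/
@[reducible] noncomputable def tupTy : (n : ℕ) → ITy N (Fin n → D)
  | 0 => ITy.ofInj (fun _ => (PUnit.unit : PUnit.{1})) (fun _ _ _ => Subsingleton.elim _ _)
      ((Int.const True).congr fun _ => ⟨fun _ => ⟨Fin.elim0, rfl⟩, fun _ => trivial⟩)
  | n + 1 =>
    letI := tupTy n
    ITy.ofInj (fun a : Fin (n + 1) → D => (a 0, fun i : Fin n => a i.succ)) (consInj n)
      ((Int.const True).congr fun q => ⟨fun _ => consSurj n q, fun _ => trivial⟩)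

noncomputable instance instTup (n : ℕ) : ITy N (Fin n → D) := tupTy N D n

theorem code_tup0 (a : Fin 0 → D) : code (M := N) a = small_empty.elt := rfl

theorem code_tup {n : ℕ} (a : Fin (n + 1) → D) :
    code (M := N) a = op (code (a 0)) (code fun i : Fin n => a i.succ) := rfl

theorem op_ne_empty (x y : N) : op x y ≠ small_empty.elt := fun h => by
  have h1 : Mem (up x x) (op x y) := mem_up.2 (Or.inl rfl)
  rw [h] at h1
  exact small_empty.mem.1 h1

theorem tup_len : ∀ (n m : ℕ) (a : Fin n → D) (b : Fin m → D),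
    code (M := N) a = code (M := N) b → n = m
  | 0, 0, _, _, _ => rfl
  | 0, m + 1, a, b, h => by
    rw [code_tup0, code_tup] at h
    exact absurd h.symm (op_ne_empty _ _)
  | n + 1, 0, a, b, h => by
    rw [code_tup0, code_tup] at h
    exact absurd h (op_ne_empty _ _)
  | n + 1, m + 1, a, b, h => by
    rw [code_tup, code_tup] at h
    rw [tup_len n m _ _ (op_inj h).2]

theorem intF_uncons (n : ℕ) :
    IntF N fun a : Fin (n + 1) → D => (a 0, fun i : Fin n => a i.succ) :=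
  IntF.ofInj (fun a : Fin (n + 1) → D => (a 0, fun i : Fin n => a i.succ)) (consInj n)
    ((Int.const True).congr fun q => ⟨fun _ => consSurj n q, fun _ => trivial⟩)

theorem intF_eval : ∀ (n : ℕ) (i : Fin n), IntF N fun a : Fin n → D => a i
  | 0, i => i.elim0
  | n + 1, i => Fin.cases (IntF.fst (intF_uncons n))
      (fun j => IntF.comp (g := fun a : Fin n → D => a j) (intF_eval n j)
        (IntF.snd (intF_uncons n))) i

theorem intF_tuple {γ : Type u₂} [ITy N γ] (n : ℕ) : ∀ f : γ → Fin n → D,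
    (∀ i, IntF N fun c => f c i) → IntF N f := by
  induction n with
  | zero =>
    intro f _
    have h : f = fun _ => Fin.elim0 := funext fun _ => Subsingleton.elim _ _
    rw [h]
    exact IntF.const _
  | succ n ih =>
    intro f h
    exact IntF.ofInj_iff (fun a : Fin (n + 1) → D => (a 0, fun i : Fin n => a i.succ)) (consInj n)
      ((Int.const True).congr fun q => ⟨fun _ => consSurj n q, fun _ => trivial⟩)
      (IntF.pair (h 0) (ih _ fun i => h i.succ))

end tup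

section plain

attribute [local instance] toL

variable {N : Type u} [LSet.Structure N] [hM : IsModel N]

theorem ordPair_iff {p x y : N} : Plain.IsOrdPair p x y ↔ p = op x y := by
  constructor
  · rintro ⟨s, d, h1, h2, h3⟩
    rw [(eq_up.2 ⟨trivial, h3⟩ : p = up s d), (eq_up.2 ⟨trivial, h1⟩ : s = up x x),
      (eq_up.2 ⟨trivial, h2⟩ : d = up x y)]
    rfl
  · rintro rfl
    exact ⟨up x x, up x y, fun _ => mem_up (M := N), fun _ => mem_up (M := N),
      fun _ => mem_up (M := N)⟩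

theorem isNum_iff : ∀ (i : ℕ) (x : N), IsNum i x ↔ x = (num i : INat N).val
  | 0, x => ⟨fun h => hM.ext _ _ trivial trivial fun z =>
      ⟨fun h1 => absurd h1 (h z), fun h1 => absurd h1 INat.not_mem_zero⟩,
      fun h z => h ▸ INat.not_mem_zero (M := N)⟩
  | i + 1, x => by
    constructor
    · rintro ⟨y, h1, h2⟩
      rw [isNum_iff i y] at h1
      subst h1
      exact hM.ext _ _ trivial trivial fun z => (h2 z).trans (INat.mem_succ (M := N)).symm
    · rintro rfl
      exact ⟨_, (isNum_iff i _).2 rfl, fun z => INat.mem_succ (M := N)⟩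

theorem std_of_omega (h : OmegaModel N) : Std N where
  surj n := by
    obtain ⟨w, hw⟩ := h
    have h1 : Ind w := ⟨⟨_, (hw _).2 ⟨0, (isNum_iff 0 _).2 rfl⟩, trivial,
      fun z => INat.not_mem_zero⟩, fun x hx => by
        obtain ⟨i, hi⟩ := (hw x).1 hx
        rw [isNum_iff] at hi
        subst hi
        exact ⟨_, (hw _).2 ⟨i + 1, (isNum_iff _ _).2 rfl⟩, trivial, fun z => INat.mem_succ⟩⟩
    obtain ⟨i, hi⟩ := (hw _).1 (n.prop w h1)
    exact ⟨i, INat.ext ((isNum_iff _ _).1 hi).symm⟩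

noncomputable instance instPEl (Ω : N) : ITy N (Plain.El Ω) := instITyEl Ω

theorem code_PEl {Ω : N} (a : Plain.El Ω) : code (M := N) a = a.1 := rfl

theorem isTuple_iff {Ω : N} : ∀ (n : ℕ) (a : Fin n → Plain.El Ω) (t : N),
    IsTuple n (fun i => (a i).1) t ↔ t = code a
  | 0, a, t => ⟨fun h => small_empty.eq_elt trivial fun z =>
      ⟨fun h1 => absurd h1 (h z), fun h1 => absurd h1 (Set.notMem_empty z)⟩,
      fun h z h1 => by
        rw [h, code_tup0] at h1
        exact (small_empty (M := N)).mem.1 h1⟩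
  | n + 1, a, t => by
    rw [code_tup]
    constructor
    · rintro ⟨s, h1, h2⟩
      rw [ordPair_iff.1 h2, (isTuple_iff n (fun i => a i.succ) s).1 h1]
      rfl
    · rintro rfl
      exact ⟨_, (isTuple_iff n (fun i => a i.succ) _).2 rfl, ordPair_iff.2 rfl⟩

theorem isGraphOf_iff {Ω : N} {n : ℕ} {γ : N} {f : Op Ω n} :
    IsGraphOf γ f ↔ ∀ p, Mem p γ ↔ ∃ a, p = code (a, f a) := by
  refine forall_congr' fun p => iff_congr Iff.rfl (exists_congr fun a => ⟨?_, ?_⟩)
  · rintro ⟨t, h1, h2⟩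
    rw [ordPair_iff.1 h2, (isTuple_iff n a t).1 h1]
    rfl
  · rintro rfl
    exact ⟨_, (isTuple_iff n a _).2 rfl, ordPair_iff.2 rfl⟩

theorem intF_of_graph {Ω : N} {n : ℕ} {γ : N} {f : Op Ω n} (h : IsGraphOf γ f) : IntF N f := by
  refine ⟨γ, fun q => (isGraphOf_iff.1 h _).trans ⟨?_, ?_⟩⟩
  · rintro ⟨a, h1⟩
    rw [ITy.inj h1]
  · intro h1
    exact ⟨q.1, by rw [h1]⟩

theorem graph_code {Ω : N} {n : ℕ} (F : IFun N (Fin n → Plain.El Ω) (Plain.El Ω)) :
    IsGraphOf (code F) F.toFun := by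
  refine isGraphOf_iff.2 fun p => mem_code_pow.trans ⟨?_, ?_⟩
  · rintro ⟨q, h1, rfl⟩
    exact ⟨q.1, by rw [show F.toFun q.1 = q.2 from h1]⟩
  · rintro ⟨a, rfl⟩
    exact ⟨(a, F a), rfl, rfl⟩

variable [hS : Std N]

theorem int_lab {Ω : N} [Nonempty (Plain.El Ω)] {C : ∀ n, Set (Op Ω n)}
    {ξ : ∀ n, C n → Fin n} (hξ : IsProjHom C ξ) (n : ℕ) (i : Fin n) :
    Int N (fun F : IFun N (Fin n → Plain.El Ω) (Plain.El Ω) =>
      ∃ h : F.toFun ∈ C n, ξ n ⟨F.toFun, h⟩ = i) := by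
  obtain ⟨x, hx⟩ := hξ.inModel
  have h0 : Int N (fun q : IFun N (Fin n → Plain.El Ω) (Plain.El Ω) × ℕ => Mem (code q) x) :=
    ⟨x, fun _ => Iff.rfl⟩
  refine (Int.comp h0 (IntF.pair IntF.id (IntF.const (i : ℕ)))).congr fun F => ?_
  refine (hx _).trans ⟨?_, ?_⟩
  · rintro ⟨m, g, γ, k, h1, h2, h3⟩
    obtain ⟨h4, h5⟩ := op_inj (ordPair_iff.1 h3)
    subst h4
    rw [isNum_iff] at h2
    have h6 : (i : ℕ) = ξ m g := num_inj (INat.ext (h5.trans h2))
    have h7 := isGraphOf_iff.1 h1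
    have h8 := isGraphOf_iff.1 (graph_code F)
    obtain rfl : n = m := by
      obtain ⟨b, hb⟩ := (h7 _).1 ((h8 _).2 ⟨fun _ => Classical.arbitrary _, rfl⟩)
      exact tup_len _ _ _ _ (op_inj hb).1
    have h9 : F.toFun = g.1 := by
      funext a
      obtain ⟨b, hb⟩ := (h7 _).1 ((h8 _).2 ⟨a, rfl⟩)
      obtain ⟨rfl, h10⟩ := Prod.ext_iff.1 (ITy.inj hb)
      exact h10
    obtain ⟨g, hg⟩ := g
    subst h9
    exact ⟨hg, Fin.ext h6.symm⟩
  · rintro ⟨h, rfl⟩
    exact ⟨n, ⟨_, h⟩, _, _, graph_code F, (isNum_iff _ _).2 rfl, ordPair_iff.2 rfl⟩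

theorem continuous_of (hNS : NSel N) (hCC : CCh N (IPow N ℕ)) {Ω : N} (hΩ : CountablyInfinite Ω)
    {C : ∀ n, Set (Op Ω n)} (hC : IsClosedClone Ω C) (ho : Oligomorphic C)
    {ξ : ∀ n, C n → Fin n} (hξ : IsProjHom C ξ) : ContinuousHom C ξ := by
  classical
  obtain ⟨e, γ, hγ⟩ := hΩ
  have : Nonempty (Plain.El Ω) := ⟨e 0⟩
  have he : IntF N e := by
    refine ⟨γ, fun q => (hγ _).trans ⟨?_, ?_⟩⟩
    · rintro ⟨i, k, h1, h2⟩
      rw [isNum_iff] at h1
      subst h1
      have h3 : q = (i, e i) := ITy.inj (ordPair_iff.1 h2)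
      rw [h3]
    · intro h
      exact ⟨q.1, _, (isNum_iff _ _).2 rfl, ordPair_iff.2 (by rw [h]; rfl)⟩
  let Y : Lab (Plain.El Ω) :=
    { X := fun n f i => ∃ h : f ∈ C n, ξ n ⟨f, h⟩ = i
      uniq := fun n f i j ⟨_, h⟩ ⟨_, h'⟩ => h.symm.trans h'
      proj := fun n i => ⟨hC.proj n i, hξ.proj n i _⟩
      comp := fun n m f i g k ⟨h, h'⟩ hg => by
        choose hg hg' using hg
        refine ⟨hC.comp n m f h g hg, ?_⟩
        rw [hξ.comp n m ⟨f, h⟩ fun j => ⟨g j, hg j⟩, h', hg'] }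
  have hint : ∀ n f i, Y.X n f i → IntF N f := fun n f i ⟨h, _⟩ => by
    obtain ⟨γ, hγ⟩ := hC.graphs n f h
    exact intF_of_graph hγ
  intro n f
  by_contra hcon
  obtain ⟨f₂, hf₂, hd⟩ := Lab.disc_two (Y := Y) (f := f.1) (j := ξ n f) ⟨f.2, rfl⟩ fun A => by
    by_contra h1
    exact hcon ⟨A, fun g hg => by
      by_contra h2
      exact h1 ⟨g.1, ξ n g, ⟨g.2, rfl⟩, h2, hg⟩⟩
  have t2 : IntF N (fun q : Plain.El Ω × Plain.El Ω => ![q.1, q.2]) :=
    intF_tuple 2 _ fun i => by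
      fin_cases i
      · exact IntF.fst'
      · exact IntF.snd'
  have t3 : IntF N (fun q : (Plain.El Ω × Plain.El Ω) × Plain.El Ω => ![q.1.1, q.1.2, q.2]) :=
    intF_tuple 3 _ fun i => by
      fin_cases i
      · exact IntF.fst IntF.fst'
      · exact IntF.snd IntF.fst'
      · exact IntF.snd'
  have a2 : IntF N (fun q : IFun N (Plain.El Ω × Plain.El Ω) (Plain.El Ω) ×
      (Fin 2 → Plain.El Ω) => q.1 (q.2 0, q.2 1)) :=
    IntF.app IntF.fst' (IntF.pair (IntF.comp (intF_eval 2 0) IntF.snd')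
      (IntF.comp (intF_eval 2 1) IntF.snd'))
  have a3 : IntF N (fun q : IFun N ((Plain.El Ω × Plain.El Ω) × Plain.El Ω) (Plain.El Ω) ×
      (Fin 3 → Plain.El Ω) => q.1 ((q.2 0, q.2 1), q.2 2)) :=
    IntF.app IntF.fst' (IntF.pair (IntF.pair (IntF.comp (intF_eval 3 0) IntF.snd')
      (IntF.comp (intF_eval 3 1) IntF.snd')) (IntF.comp (intF_eval 3 2) IntF.snd'))
  refine core hNS hCC e he Y (fun t i h => IntF.comp (hint _ _ _ h) t2)
    (fun g h => IntF.comp (hint _ _ _ h) t3) (fun i => ?_) ?_ (fun t ht h => ?_)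
    (Lab.exists_sink e hf₂ hd fun k hk => ?_)
  · refine (Int.comp (int_lab hξ 2 i) (IntF.lam
      (f := fun (F : IFun N (Plain.El Ω × Plain.El Ω) (Plain.El Ω)) (a : Fin 2 → Plain.El Ω) =>
        F (a 0, a 1)) a2)).congr fun F => ?_
    have h1 : (lam N fun a : Fin 2 → Plain.El Ω => F (a 0, a 1)).toFun =
        fun a => U2 F (a 0) (a 1) := funext fun a => lam_apply (IntF.slice
      (f := fun (F : IFun N (Plain.El Ω × Plain.El Ω) (Plain.El Ω)) (a : Fin 2 → Plain.El Ω) =>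
        F (a 0, a 1)) a2 F) a
    change Y.X 2 _ i ↔ Y.X 2 _ i
    rw [h1]
  · refine (Int.comp (int_lab hξ 3 0) (IntF.lam
      (f := fun (F : IFun N ((Plain.El Ω × Plain.El Ω) × Plain.El Ω) (Plain.El Ω))
        (a : Fin 3 → Plain.El Ω) => F ((a 0, a 1), a 2)) a3)).congr fun F => ?_
    have h1 : (lam N fun a : Fin 3 → Plain.El Ω => F ((a 0, a 1), a 2)).toFun =
        fun a => U3 F (a 0) (a 1) (a 2) := funext fun a => lam_apply (IntF.slice
      (f := fun (F : IFun N ((Plain.El Ω × Plain.El Ω) × Plain.El Ω) (Plain.El Ω))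
        (a : Fin 3 → Plain.El Ω) => F ((a 0, a 1), a 2)) a3 F) a
    change Y.X 3 _ 0 ↔ Y.X 3 _ 0
    rw [h1]
  · have h1 : IntF N (fun a : Fin 2 → Plain.El Ω => t (a 0) (a 1)) :=
      IntF.comp₂ (p := t) ht (intF_eval 2 0) (intF_eval 2 1)
    have h2 : (fun a : Fin 2 → Plain.El Ω => t (a 0) (a 1)) ∈ C 2 := by
      refine hC.closed 2 _ (by norm_num) ⟨_, graph_code ⟨_, h1⟩⟩ fun A => ?_
      obtain ⟨g, l, ⟨hg, -⟩, h3⟩ := h (A.sup (fun a => e.symm (a 0) + e.symm (a 1)) + 1)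
      refine ⟨_, hg, fun a ha => ?_⟩
      have h4 := Finset.le_sup (f := fun a : Fin 2 → Plain.El Ω => e.symm (a 0) + e.symm (a 1)) ha
      exact h3 _ _ (by omega) (by omega)
    exact ⟨_, h2, rfl⟩
  · have h1 : ∀ g : Op Ω 1, Y.X 1 g 0 ↔ g ∈ C 1 := fun g =>
      ⟨fun ⟨h, _⟩ => h, fun h => ⟨h, Subsingleton.elim _ _⟩⟩
    simp only [h1]
    exact ho k hk

end plain

end Pool.Agent.Helper672.ZFA.H154
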