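import Mathlib
import Pool.Agent.H635R2.Gen
import Pool.Agent.H154Z.Clone.NS
import Pool.Agent.H154Z.Clone.CC
import Pool.Agent.H154Z.Clone.Tup

/-! The model in which all homomorphisms to the projections are continuous. -/

set_option autoImplicit false
set_option linter.unreachableTactic false
set_option linter.unusedTactic false

namespace Pool.Agent.Helper672.ZFA.H154

open FirstOrder FirstOrder.Language H635 Pool.Agent.Helper672 Pool.Agent.H154Z.Clone
open Pool.Agent.Helper672.Plain (LSet)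
open Pool.Agent.H635Amen (ZF)

universe u

section

variable {N : Type u} [L.Structure N] [hM : IsModel N] [hS : Std N]

theorem exists_pow (hall : ∀ x : N, IsSet x) {w : N} (h : ∀ z, Mem z w → ∃ k : ℕ, z = code k) :
    ∃ W : IPow N ℕ, code W = w := by
  refine ⟨⟨fun k => Mem (code k) w, ⟨w, fun _ => Iff.rfl⟩⟩, hM.ext _ _ (hall _) (hall _) fun z =>
    mem_code_pow.trans ⟨?_, fun hz => ?_⟩⟩
  · rintro ⟨k, hk, rfl⟩
    exact hk
  · obtain ⟨k, rfl⟩ := h z hz
    exact ⟨k, hz, rfl⟩

theorem nsel_of (hall : ∀ x : N, IsSet x) (h : ∀ E : N, ∃ w w' : N,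
    (∀ z, Mem z w → ∃ k : ℕ, z = code k) ∧ (∀ z, Mem z w' → ∃ k : ℕ, z = code k) ∧
    (∃ m, ∀ k : ℕ, m ≤ k → (Mem (code k) w ↔ ¬ Mem (code k) w')) ∧ (Mem w E ↔ Mem w' E)) :
    NSel N := by
  rintro E ⟨s, hs⟩
  obtain ⟨w, w', h1, h2, ⟨m, h3⟩, h4⟩ := h s
  obtain ⟨W, rfl⟩ := exists_pow hall h1
  obtain ⟨W', rfl⟩ := exists_pow hall h2
  refine ⟨W, W', ⟨m, fun k hk => ?_⟩, (hs W).symm.trans (h4.trans (hs W'))⟩
  rw [← mem_code_iff, ← mem_code_iff]
  exact h3 k hk

theorem cch_of (h : ∀ Y : N, ∃ z : N, ∀ n : ℕ,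
    (∃ y, Mem y Y ∧ (∀ z, Mem z y → ∃ k : ℕ, z = code k) ∧ Mem (code n) y) →
      ∃ m y, Mem y Y ∧ Mem (code n) y ∧
        ∀ k : ℕ, Mem (code k) y ↔ Mem (code (Nat.pair m k)) z) : CCh N (IPow N ℕ) := by
  intro r hr hex
  have h0 : Int N (fun q : (ℕ × IPow N ℕ) × ℕ =>
      q.2 = Nat.pair 0 q.1.1 ∨ ∃ j, j ∈ q.1.2 ∧ q.2 = Nat.pair 1 j) := by (repeat' (first | with_reducible exact IntF.id | with_reducible exact IntF.fst' | with_reducible exact IntF.snd' | with_reducible exact IntF.const _ | with_reducible exact Int.const _ | assumption | with_reducible apply Int.and | with_reducible apply Int.or | with_reducible apply Int.not | with_reducible apply Int.imp | with_reducible apply Int.iff | with_reducible apply Int.eq | with_reducible apply Int.mem | with_reducible apply Int.ltN | with_reducible apply int_ltn | with_reducible apply int_len | with_reducible_and_instances apply Int.le | with_reducible apply Int.all | with_reducible apply Int.ex | with_reducible apply IntF.fst | with_reducible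 apply IntF.snd | with_reducible apply IntF.app | with_reducible apply IntF.inl | with_reducible apply IntF.inr | with_reducible apply intF_succ | with_reducible apply intF_pair | with_reducible apply intF_unpair | with_reducible apply int_bit | with_reducible apply intF_num | with_reducible_and_instances apply IntF.mul | with_reducible_and_instances apply IntF.add | with_reducible_and_instances apply IntF.smul | with_reducible apply IntF.val | with_reducible apply IntF.mk | with_reducible apply IntF.ite | (with_reducible refine Int.comp ?_ ?_; assumption) | (with_reducible refine Int.comp₂ ?_ ?_ ?_; assumption) | (with_reducible refine Int.comp₃ ?_ ?_ ?_ ?_; assumption) | (with_reducible refine Int.comp₄ ?_ ?_ ?_ ?_ ?_; assumption) | (with_reducible refine IntF.comp ?_ ?_; assumption) | (with_reducible refine IntF.comp₂ ?_ ?_ ?_; assumption) | (with_reducible refine IntF.comp₃ ?_ ?_ ?_ ?_; assumption) | with_reducible apply IntF.pair))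
  let tag : ℕ × IPow N ℕ → IPow N ℕ := fun c =>
    sep N fun k => k = Nat.pair 0 c.1 ∨ ∃ j, j ∈ c.2 ∧ k = Nat.pair 1 j
  have htag : IntF N tag := IntF.sep (p := fun (c : ℕ × IPow N ℕ) (k : ℕ) =>
    k = Nat.pair 0 c.1 ∨ ∃ j, j ∈ c.2 ∧ k = Nat.pair 1 j) h0
  have mtag : ∀ c k, k ∈ tag c ↔ k = Nat.pair 0 c.1 ∨ ∃ j, j ∈ c.2 ∧ k = Nat.pair 1 j :=
    fun c k => mem_sep (Int.slice (p := fun (c : ℕ × IPow N ℕ) (k : ℕ) =>
      k = Nat.pair 0 c.1 ∨ ∃ j, j ∈ c.2 ∧ k = Nat.pair 1 j) h0 c)
  have hY : Int N (fun t : IPow N ℕ => ∃ c : ℕ × IPow N ℕ, r c.1 c.2 ∧ tag c = t) :=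
    Int.ex (Int.and (Int.comp (p := fun c : ℕ × IPow N ℕ => r c.1 c.2) hr IntF.snd')
      (Int.eq (IntF.comp htag IntF.snd') IntF.fst'))
  obtain ⟨z, hz⟩ := h hY.small.elt
  let Z : IPow N ℕ := ⟨fun k => Mem (code k) z, ⟨z, fun _ => Iff.rfl⟩⟩
  have h1 : Int N (fun q : ℕ × ℕ => Nat.pair q.1 (Nat.pair 1 q.2) ∈ Z) := by (repeat' (first | with_reducible exact IntF.id | with_reducible exact IntF.fst' | with_reducible exact IntF.snd' | with_reducible exact IntF.const _ | with_reducible exact Int.const _ | assumption | with_reducible apply Int.and | with_reducible apply Int.or | with_reducible apply Int.not | with_reducible apply Int.imp | with_reducible apply Int.iff | with_reducible apply Int.eq | with_reducible apply Int.mem | with_reducible apply Int.ltN | with_reducible apply int_ltn | with_reducible apply int_len | with_reducible_and_instances apply Int.le | with_reducible apply Int.all | with_reducible apply Int.ex | with_reducible apply IntF.fst | with_reducible apply IntF.snd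 | with_reducible apply IntF.app | with_reducible apply IntF.inl | with_reducible apply IntF.inr | with_reducible apply intF_succ | with_reducible apply intF_pair | with_reducible apply intF_unpair | with_reducible apply int_bit | with_reducible apply intF_num | with_reducible_and_instances apply IntF.mul | with_reducible_and_instances apply IntF.add | with_reducible_and_instances apply IntF.smul | with_reducible apply IntF.val | with_reducible apply IntF.mk | with_reducible apply IntF.ite | (with_reducible refine Int.comp ?_ ?_; assumption) | (with_reducible refine Int.comp₂ ?_ ?_ ?_; assumption) | (with_reducible refine Int.comp₃ ?_ ?_ ?_ ?_; assumption) | (with_reducible refine Int.comp₄ ?_ ?_ ?_ ?_ ?_; assumption) | (with_reducible refine IntF.comp ?_ ?_; assumption) | (with_reducible refine IntF.comp₂ ?_ ?_ ?_; assumption) | (with_reducible refine IntF.comp₃ ?_ ?_ ?_ ?_; assumption) | with_reducible apply IntF.pair))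
  let sc : ℕ → IPow N ℕ := fun m => sep N fun j => Nat.pair m (Nat.pair 1 j) ∈ Z
  have hsc : IntF N sc := IntF.sep (p := fun m j : ℕ => Nat.pair m (Nat.pair 1 j) ∈ Z) h1
  have msc : ∀ m j, j ∈ sc m ↔ Nat.pair m (Nat.pair 1 j) ∈ Z := fun m j =>
    mem_sep (Int.slice (p := fun m j : ℕ => Nat.pair m (Nat.pair 1 j) ∈ Z) h1 m)
  obtain ⟨f, hf, hf'⟩ := exists_nat_choice (M := N) (r := fun n m => r n (sc m))
    (Int.comp₂ (p := r) hr IntF.fst' (IntF.comp hsc IntF.snd')) fun n => by
      obtain ⟨y, hy⟩ := hex n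
      obtain ⟨m, y', h2, h3, h4⟩ := hz (Nat.pair 0 n) ⟨code (tag (n, y)),
        hY.small.mem.2 ⟨_, ⟨(n, y), hy, rfl⟩, rfl⟩, fun x hx => by
          obtain ⟨k, -, rfl⟩ := mem_code_pow.1 hx
          exact ⟨k, rfl⟩, mem_code_iff.2 ((mtag _ _).2 (Or.inl rfl))⟩
      obtain ⟨_, ⟨c, h5, rfl⟩, rfl⟩ := hY.small.mem.1 h2
      have h6 : n = c.1 := by
        rcases (mtag _ _).1 (mem_code_iff.1 h3) with h7 | ⟨j, -, h7⟩
        · exact (Nat.pair_eq_pair.1 h7).2
        · exact absurd (Nat.pair_eq_pair.1 h7).1 (by norm_num)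
      refine ⟨m, ?_⟩
      have h7 : sc m = c.2 := IPow.ext' fun j => by
        rw [msc]
        refine (h4 (Nat.pair 1 j)).symm.trans (mem_code_iff.trans ((mtag _ _).trans ⟨?_, fun h8 =>
          Or.inr ⟨j, h8, rfl⟩⟩))
        rintro (h8 | ⟨j', h8, h9⟩)
        · exact absurd (Nat.pair_eq_pair.1 h8).1 (by norm_num)
        · rw [(Nat.pair_eq_pair.1 h9).2]
          exact h8
      rw [h7, h6]
      exact h5
  exact ⟨fun n => sc (f n), IntF.comp hsc hf, hf'⟩

end

section

attribute [local instance] toL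

theorem isNum_of {N : Type u} [LSet.Structure N] (nn : ℕ → N)
    (h : ∀ k w, Plain.Mem w (nn k) ↔ ∃ j, j < k ∧ w = nn j) : ∀ k, IsNum k (nn k)
  | 0 => fun z hz => by
    obtain ⟨j, hj, -⟩ := (h 0 z).1 hz
    omega
  | k + 1 => ⟨nn k, isNum_of nn h k, fun z => by
    rw [h, h]
    constructor
    · rintro ⟨j, hj, rfl⟩
      rcases Nat.lt_succ_iff_lt_or_eq.1 hj with h1 | rfl
      · exact Or.inl ⟨j, h1, rfl⟩
      · exact Or.inr rfl
    · rintro (⟨j, hj, rfl⟩ | rfl)
      · exact ⟨j, by omega, rfl⟩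
      · exact ⟨k, by omega, rfl⟩⟩

theorem main_of {N : Type u} [LSet.Structure N] (hz : ZF N) (nn : ℕ → N)
    (h : ∀ k w, Plain.Mem w (nn k) ↔ ∃ j, j < k ∧ w = nn j)
    (hw : ∃ w : N, ∀ x, Plain.Mem x w ↔ ∃ k, x = nn k)
    (hns : ∀ E : N, ∃ w w' : N,
      (∀ z, Plain.Mem z w → ∃ k, z = nn k) ∧ (∀ z, Plain.Mem z w' → ∃ k, z = nn k) ∧
      (∃ m, ∀ k, m ≤ k → (Plain.Mem (nn k) w ↔ ¬ Plain.Mem (nn k) w')) ∧
      (Plain.Mem w E ↔ Plain.Mem w' E))
    (hcc : ∀ Y : N, ∃ z : N, ∀ n,
      (∃ y, Plain.Mem y Y ∧ (∀ z, Plain.Mem z y → ∃ k, z = nn k) ∧ Plain.Mem (nn n) y) →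
      ∃ m y, Plain.Mem y Y ∧ Plain.Mem (nn n) y ∧
        ∀ k, Plain.Mem (nn k) y ↔ Plain.Mem (nn (Nat.pair m k)) z) :
    OmegaModel N ∧ ∀ Ω : N, CountablyInfinite Ω → ∀ C : ∀ n, Set (Op Ω n), IsClosedClone Ω C →
      Oligomorphic C → ∀ ξ : ∀ n, C n → Fin n, IsProjHom C ξ → ContinuousHom C ξ := by
  have hM : IsModel N := isModel_of_zermelo hz.toZermelo
  have h1 : ∀ k, nn k = (num k : INat N).val := fun k => (isNum_iff k _).1 (isNum_of nn h k)
  have ho : OmegaModel N := by
    obtain ⟨w, hw⟩ := hw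
    exact ⟨w, fun x => (hw x).trans (exists_congr fun k => by rw [isNum_iff, h1])⟩
  have hS : Std N := std_of_omega ho
  obtain rfl : nn = fun k => code k := funext h1
  exact ⟨ho, fun Ω hΩ C hC hol ξ hξ => continuous_of (nsel_of (fun _ => trivial) hns) (cch_of hcc)
    hΩ hC hol hξ⟩

theorem exists_model : ∃ (N : Type 1) (_ : LSet.Structure N), ZF N ∧ OmegaModel N ∧
    ∀ Ω : N, CountablyInfinite Ω → ∀ C : ∀ n, Set (Op Ω n), IsClosedClone Ω C →
      Oligomorphic C → ∀ ξ : ∀ n, C n → Fin n, IsProjHom C ξ → ContinuousHom C ξ := by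
  obtain ⟨M, _, _, hz, ht, hwf⟩ := exists_ground_model
  have hM : IsModel M := isModel_of_zermelo hz.toZermelo
  have hS : Std M := std_of_wf hwf
  have hAC : IAC M := iac_of ht
  obtain ⟨G, hG⟩ := exists_gen (M := M) (P := PP M)
    ⟨(sep M fun _ => False, sep M fun _ => False), Set.finite_empty.subset fun _ h => mem_emp h⟩
  have hN := nn_zf (S := SS M) hG (coll_of_zf hz)
  exact ⟨NN (SS M) hG, inferInstance, hN, main_of hN (nN hG) (fun _ _ => mem_nN hG)
    (exists_omega hG) (ns_plain hG) (cc_plain hG hAC)⟩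

end

end Pool.Agent.Helper672.ZFA.H154
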